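import Pool.Agent.Helper70_KK.VLst

/-! MP_747bc0_co, squad KK, block BETA part 2, row CLZ (closing; after `Helper97_KK/ASM.lean`). -/

set_option autoImplicit false

namespace Pool.Agent.KK.H70

/-- Windows of length `k` of the cyclic list. -/
theorem windows {α : Type} (L L' U : List α) (k : ℕ) (hk : 1 ≤ k) (hL : L = L' ++ U)
    (hU : U.length = k - 1) (s : List α) (hs : s <:+: L ++ L.take (k - 1)) (hsk : s.length = k) :
    s <:+: U ++ L := by
  obtain ⟨a, b, hab⟩ := hs
  by_cases h : a.length + k ≤ L.length
  · -- inside `L`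
    have h1 : s <:+: L := by
      rcases List.append_eq_append_iff.mp hab with ⟨a', h1, _⟩ | ⟨c', h1, _⟩
      · exact ⟨a, a', by rw [h1]⟩
      · have h2 : (a ++ s).length = L.length + c'.length := by rw [h1, List.length_append]
        rw [List.length_append, hsk] at h2
        have h3 : c' = [] := List.length_eq_zero_iff.mp (by omega)
        rw [h3, List.append_nil] at h1
        exact ⟨a, [], by rw [List.append_nil, h1]⟩
    exact h1.trans (List.suffix_append U L).isInfix
  · have hlen : L.length = L'.length + (k - 1) := by rw [hL, List.length_append, hU]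
    have hab' : a ++ (s ++ b) = L' ++ (U ++ L.take (k - 1)) := by
      rw [← List.append_assoc, hab]
      conv_lhs => rw [hL]
      rw [List.append_assoc, ← hL]
    have h2 : s <:+: U ++ L.take (k - 1) := by
      rcases List.append_eq_append_iff.mp hab' with ⟨a', h1, h2⟩ | ⟨c', h1, h2⟩
      · have h3 : L'.length = a.length + a'.length := by rw [h1, List.length_append]
        have h4 : a' = [] := List.length_eq_zero_iff.mp (by omega)
        rw [h4, List.nil_append] at h2
        exact ⟨[], b, by rw [List.nil_append, h2]⟩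
      · exact ⟨c', b, by rw [List.append_assoc, h2]⟩
    refine h2.trans ?_
    have h3 : U ++ L.take (k - 1) <+: U ++ L :=
      (List.prefix_append_right_inj U).mpr (List.take_prefix _ _)
    exact h3.isInfix

theorem clz (hBUL : BulkStmt) : ClzStmt := by
  intro k hk
  obtain ⟨ε, hε0, hε1, n₁, hbulk⟩ := hBUL k hk
  refine ⟨ε, hε0, hε1, max n₁ k, ?_⟩
  intro V _ _ H X D p γ u L hn hγε hnear hD hL1 hL4 hL2 hX1 hX2 hlst
  obtain ⟨hu, _, hL3, hsuf, hOK, hpar⟩ := hlst
  have hn1 : n₁ ≤ Fintype.card V := (le_max_left _ _).trans hn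
  have hn2 : k ≤ Fintype.card V := (le_max_right _ _).trans hn
  have hU : (fw u : List (Slot V)).length = k - 1 := by
    rw [fw_length, hu]
  have hsufL : (fw u : List (Slot V)) <:+ L := by
    refine List.suffix_of_suffix_length_le hsuf (List.suffix_append _ _) ?_
    rw [hU, hL1]
    omega
  obtain ⟨L', hL'⟩ := hsufL
  have hwin : ∀ s : List (Slot V), s <:+: L ++ L.take (k - 1) → s.length = k →
      s <:+: fw u ++ L :=
    fun s hs hsk => windows L L' (fw u) k (by omega) hL'.symm hU s hs hsk
  refine hbulk V H X L hn1 hL1 hL3 hL4 hL2 hX1 hX2 ?_ ?_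
  · intro s hs hsk
    exact hOK s (hwin s hs hsk) hsk
  · intro v u₁ u₂ hlen hv hs
    have e : (fw u₁ ++ Sum.inr (decide (v ∈ X)) :: fw u₂ : List (Slot V)) =
        fw (u₁ ++ decide (v ∈ X) :: u₂) := by
      unfold fw
      simp
    rw [e] at hs
    have hlk : (u₁ ++ decide (v ∈ X) :: u₂).length = k := by
      rw [List.length_append, List.length_cons]
      omega
    have hs' := hwin _ hs (by rw [fw_length, hlk])
    have hp := hpar _ hs' hlk
    have h1 := hnear v (fun h => hv (hD v h)) u₁ u₂ hlen hp
    refine h1.trans ?_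
    apply mul_le_mul_of_nonneg_right hγε
    positivity

end Pool.Agent.KK.H70
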