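import Pool.Agent.Helper70_KK.VLst

/-! MP_747bc0_co, squad KK, block BETA part 2, row FIN: from a closed list to a Hamilton cycle. -/

set_option autoImplicit false

namespace Pool.Agent.KK.H70

/-- four periods -/
theorem per4 (hPWT : PwtStmt) (w : List Bool) (a m : ℕ) :
    per w (a + 4 * w.length) m = per w a m ∧ wt (per w a (4 * w.length)) = 4 * wt w := by
  obtain ⟨h1, h2, _, h4, _⟩ := hPWT
  constructor
  · have e : a + 4 * w.length = a + w.length + w.length + w.length + w.length := by ring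
    rw [e, h2, h2, h2, h2]
  · have e : 4 * w.length = w.length + (w.length + (w.length + w.length)) := by ring
    rw [e, h4, h4, h4]
    unfold wt at *
    rw [List.count_append, List.count_append, List.count_append, h1, h1, h1, h1]
    ring

theorem fin (hREL : RelStmt) (hPER : PerStmt) (hPWT : PwtStmt) (hPST : PstStmt)
    (hABQ : AbqStmt) (hCLZ : ClzStmt) : FinStmt := by
  intro k hk
  obtain ⟨ε, hε0, hε1, n₁, hclz⟩ := hCLZ k (by omega)
  refine ⟨ε, hε0, hε1, ?_⟩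
  intro κ hκ
  have hk0 : (0 : ℝ) < (k : ℝ) := by
    have : (0 : ℕ) < k := by omega
    exact_mod_cast this
  obtain ⟨ρ, hρdef⟩ : ∃ ρ : ℝ, ρ = min (ε / 2) (min (κ / (16 * k)) (ε / (16 * k))) := ⟨_, rfl⟩
  have hρ0 : 0 < ρ := by
    rw [hρdef]
    refine lt_min (by positivity) (lt_min (by positivity) (by positivity))
  have hρ1 : ρ ≤ ε / 2 := by
    rw [hρdef]
    exact min_le_left _ _
  have hρ2 : ρ ≤ κ / (16 * k) := by
    rw [hρdef]
    exact (min_le_right _ _).trans (min_le_left _ _)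
  have hρ3 : ρ ≤ ε / (16 * k) := by
    rw [hρdef]
    exact (min_le_right _ _).trans (min_le_right _ _)
  refine ⟨ρ, hρ0, ?_⟩
  intro Q
  refine ⟨max n₁ (max ⌈((Q : ℝ) + 2 * k) / (κ / 2)⌉₊ ⌈(Q : ℝ) / (ε / 2)⌉₊), ?_⟩
  intro V _ _ H X D D₁ p t q N a w hn hnear hD hX1 hX2 hwl hwt ht1 htk htp hpas hqQ hrea hN ha
  have hn1 : n₁ ≤ Fintype.card V := (le_max_left _ _).trans hn
  have hn0 : (0 : ℝ) ≤ (Fintype.card V : ℝ) := Nat.cast_nonneg _
  have hn2 : (Q : ℝ) + 2 * k ≤ κ / 2 * (Fintype.card V : ℝ) := by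
    have h1 : ⌈((Q : ℝ) + 2 * k) / (κ / 2)⌉₊ ≤ Fintype.card V :=
      (le_max_left _ _).trans ((le_max_right _ _).trans hn)
    have h2 : ((Q : ℝ) + 2 * k) / (κ / 2) ≤ (Fintype.card V : ℝ) :=
      (Nat.le_ceil _).trans (by exact_mod_cast h1)
    rw [div_le_iff₀ (by positivity)] at h2
    linarith
  have hn3 : (Q : ℝ) ≤ ε / 2 * (Fintype.card V : ℝ) := by
    have h1 : ⌈(Q : ℝ) / (ε / 2)⌉₊ ≤ Fintype.card V :=
      (le_max_right _ _).trans ((le_max_right _ _).trans hn)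
    have h2 : (Q : ℝ) / (ε / 2) ≤ (Fintype.card V : ℝ) :=
      (Nat.le_ceil _).trans (by exact_mod_cast h1)
    rw [div_le_iff₀ (by positivity)] at h2
    linarith
  have hDκ : 2 * (k : ℝ) * D.card ≤ κ / 8 * (Fintype.card V : ℝ) := by
    have h1 : (D.card : ℝ) ≤ κ / (16 * k) * (Fintype.card V : ℝ) :=
      hD.trans (mul_le_mul_of_nonneg_right hρ2 hn0)
    have h2 : 2 * (k : ℝ) * D.card ≤ 2 * (k : ℝ) * (κ / (16 * k) * (Fintype.card V : ℝ)) :=
      mul_le_mul_of_nonneg_left h1 (by positivity)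
    have h3 : 2 * (k : ℝ) * (κ / (16 * k) * (Fintype.card V : ℝ)) =
        κ / 8 * (Fintype.card V : ℝ) := by
      field_simp
      ring
    rw [h3] at h2
    exact h2
  have hDε : 2 * (k : ℝ) * D.card ≤ ε / 8 * (Fintype.card V : ℝ) := by
    have h1 : (D.card : ℝ) ≤ ε / (16 * k) * (Fintype.card V : ℝ) :=
      hD.trans (mul_le_mul_of_nonneg_right hρ3 hn0)
    have h2 : 2 * (k : ℝ) * D.card ≤ 2 * (k : ℝ) * (ε / (16 * k) * (Fintype.card V : ℝ)) :=
      mul_le_mul_of_nonneg_left h1 (by positivity)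
    have h3 : 2 * (k : ℝ) * (ε / (16 * k) * (Fintype.card V : ℝ)) =
        ε / 8 * (Fintype.card V : ℝ) := by
      field_simp
      ring
    rw [h3] at h2
    exact h2
  have hFW : FW H X k p ε :=
    neo V H X D k p (ε / 2) ρ ε (by omega) (by positivity) hnear hD (by linarith)
  -- main list
  obtain ⟨L₀, hL1, hL2, hL3, _, _, hL6⟩ := hrea ∅ (Finset.disjoint_empty_left _) (by
    rw [Finset.card_empty]
    norm_num)
  -- the capacity
  obtain ⟨K', hK'⟩ : ∃ K' : ℝ, K' = κ * (Fintype.card V : ℝ) - 2 * k := ⟨_, rfl⟩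
  have hQ0 : (0 : ℝ) ≤ (Q : ℝ) := Nat.cast_nonneg _
  have hκn : 0 ≤ κ * (Fintype.card V : ℝ) := by positivity
  have hK'0 : 0 ≤ K' := by
    rw [hK']
    linarith
  have hcxl : (cx k w).length = k - 1 := by
    unfold cx
    exact hPWT.2.2.1 w 0 (k - 1)
  -- passes
  have hpass : ∀ v ∈ D, Rea H X k p ε K' {v} (2 * k) (cx k w) (cx k w) (4 * k) (4 * t) := by
    intro v _
    refine hPST V H X k p t ε (κ * (Fintype.card V : ℝ)) K' w v (by omega) hFW hwl hwt ht1 htk htp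
      (hpas v) ?_ hK'0
    rw [hK']
    linarith
  -- free periods
  have hfree : Rea H X k p ε K' ∅ 0 (cx k w) (cx k w) (4 * k) (4 * t) := by
    have h1 := hPER V H X k p ε ⌈K'⌉₊ w 0 (4 * k) (by omega) hwl (by rw [hwt]; exact htp)
    have h2 := (per4 hPWT w 0 (k - 1)).1
    have h3 := (per4 hPWT w (0 + k - 1) 0).2
    rw [hwl] at h2 h3
    rw [h2, h3, hwt] at h1
    have h4 := hREL V H X k p ε ⌈K'⌉₊ _ _ _ _ 0 K' (by omega) hFW h1 (by
      have := Nat.le_ceil K'
      push_cast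
      linarith)
    rw [Nat.mul_zero] at h4
    exact h4
  obtain ⟨L₁, hM1, hM2, hM3, hM4, hM5, hM6⟩ := hABQ V H X D k p t ε K' (cx k w) (by omega) hcxl
    hpass hfree (fx L₀).toFinset (by
      have h1 : ((fx L₀).toFinset.card : ℝ) ≤ (Q : ℝ) := by
        exact_mod_cast (List.toFinset_card_le _).trans (hL3.trans hqQ)
      rw [hK']
      linarith)
  refine hclz V H X D p (ε / 2) (cx k w) (L₀ ++ L₁) hn1 (by linarith) hnear ?_ ?_ ?_ ?_ hX1 hX2 ?_
  · intro x hx
    rw [fx_append, List.mem_append]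
    rcases hM5 x hx with h | h
    · exact Or.inl (List.mem_toFinset.1 h)
    · exact Or.inr h
  · rw [List.length_append, hL1, hM1]
    exact hN
  · have h1 : (fx (L₀ ++ L₁)).length ≤ Q + 2 * k * D.card := by
      rw [fx_append, List.length_append]
      exact Nat.add_le_add (hL3.trans hqQ) hM3
    have h2 : ((fx (L₀ ++ L₁)).length : ℝ) ≤ (Q : ℝ) + 2 * k * D.card := by
      exact_mod_cast h1
    have h3 : 0 ≤ ε * (Fintype.card V : ℝ) := by positivity
    linarith
  · rw [cX_append, hL2, hM2]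
    exact ha
  · refine lst_comp H X k p ε (cx k w) (cx k w) (cx k w) L₀ L₁ (by omega) hL6 hM6 ?_
    intro x hx hx'
    exact hM4 x hx' (List.mem_toFinset.2 hx)

end Pool.Agent.KK.H70
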