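import Pool.Agent.KK.StmtsB

/-! MP_747bc0_co, block B, row MIN: the majority value does not depend on the missing letter. -/

namespace Pool.Agent.KK.B.H70

open Function
open scoped Classical

theorem dens_and {α β : Type*} [Fintype α] [Fintype β] (R : α → Prop) (S : β → Prop) :
    dens (fun x : α × β => R x.1 ∧ S x.2) = dens R * dens S := by
  rw [dens_prod (fun a z => R a ∧ S z)]
  have h : ∀ a, dens (fun z => R a ∧ S z) = if R a then dens S else 0 := by
    intro a
    by_cases ha : R a
    · rw [if_pos ha]
      exact dens_congr fun z => ⟨fun h => h.2, fun h => ⟨ha, h⟩⟩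
    · rw [if_neg ha, ← dens_false (α := β)]
      exact dens_congr fun z => ⟨fun h => ha h.1, fun h => h.elim⟩
  rw [Finset.sum_congr rfl fun a _ => h a, ← Finset.sum_filter, Finset.sum_const, nsmul_eq_mul]
  conv_rhs => rw [dens_eq R]
  ring

theorem dens_wd {k : ℕ} {V : Type} [Fintype V] (X : V → Prop) (i : Fin k) (W : Fin k → Bool)
    (P : (Fin k → V) → Prop) (hP : ∀ a v, P (update a i v) ↔ P a) :
    dens (fun a => P a ∧ wd X W a) =
      dens (fun a : Fin k → V => P a ∧ ∀ l, l ≠ i → (X (a l) ↔ W l = true)) *
        dens (fun v => (X v ↔ W i = true)) := by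
  rw [← dens_and, ← dens_update i (fun a => P a ∧ wd X W a)]
  apply dens_congr
  rintro ⟨a, z⟩
  show (P (update a i z) ∧ wd X W (update a i z)) ↔ _
  constructor
  · rintro ⟨h1, h2⟩
    refine ⟨⟨(hP a z).1 h1, fun l hl => ?_⟩, ?_⟩
    · have := h2 l
      rwa [update_of_ne hl] at this
    · have := h2 i
      rwa [update_self] at this
  · rintro ⟨⟨h1, h2⟩, h3⟩
    refine ⟨(hP a z).2 h1, fun l => ?_⟩
    by_cases hl : l = i
    · subst hl
      rw [update_self]
      exact h3
    · rw [update_of_ne hl]
      exact h2 l hl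

theorem minT : MinStmt := by
  intro k V _ _ D X i W b hI h0 h1
  have hc : ∀ c : Bool, 0 < dens (fun v => (X v ↔ c = true)) := by
    intro c
    cases c
    · have h2 : dens (fun v => (X v ↔ false = true)) = dens (fun v => ¬ X v) :=
        dens_congr fun v => by simp
      rw [h2, dens_not]
      linarith
    · have h2 : dens (fun v => (X v ↔ true = true)) = dens X := dens_congr fun v => by simp
      rw [h2]
      exact h0
  have key : ∀ W : Fin k → Bool, maj D X i W ↔
      dens (fun a : Fin k → V => ¬ D i a ∧ ∀ l, l ≠ i → (X (a l) ↔ W l = true)) ≤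
      dens (fun a : Fin k → V => D i a ∧ ∀ l, l ≠ i → (X (a l) ↔ W l = true)) := by
    intro W
    unfold maj
    rw [dens_wd X i W (fun a => ¬ D i a) (fun a v => not_congr (hI i a v)),
      dens_wd X i W (D i) (fun a v => hI i a v)]
    exact mul_le_mul_iff_left₀ (hc (W i))
  rw [key, key]
  have h2 : ∀ P : (Fin k → V) → Prop,
      dens (fun a : Fin k → V => P a ∧ ∀ l, l ≠ i → (X (a l) ↔ (update W i b) l = true)) =
      dens (fun a : Fin k → V => P a ∧ ∀ l, l ≠ i → (X (a l) ↔ W l = true)) := by
    intro P
    apply dens_congr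
    intro a
    refine and_congr Iff.rfl (forall_congr' fun l => ?_)
    constructor
    · intro h hl
      have := h hl
      rwa [update_of_ne hl] at this
    · intro h hl
      rw [update_of_ne hl]
      exact h hl
  rw [h2 (fun a => ¬ D i a), h2 (D i)]

end Pool.Agent.KK.B.H70
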