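import Pool.Agent.Helper70_KK.VLst

/-! MP_747bc0_co, squad KK, block BETA part 2, row NPO: few atypical vertices. -/

set_option autoImplicit false

namespace Pool.Agent.KK.H70

open Pool.Agent.KK.H3

variable {V : Type} [Fintype V] [DecidableEq V]

omit [Fintype V] in
/-- the labels of a completion -/
theorem lab_fit (X : Finset V) {s : List (Slot V)} {e : List V} (h : List.Forall₂ (Fit X) s e) :
    e.map (fun w => decide (w ∈ X)) =
      s.map (Sum.elim (fun w => decide (w ∈ X)) id) := by
  induction h with
  | nil => rfl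
  | cons h1 _ ih =>
    rename_i a b _ _ _
    rw [List.map_cons, List.map_cons, ih]
    congr 1
    cases a with
    | inl v =>
      have h2 : v = b := h1
      rw [h2]
      rfl
    | inr c =>
      have h2 : b ∈ X ↔ c = true := h1
      change decide (b ∈ X) = c
      cases c
      · rw [decide_eq_false_iff_not]
        intro h3
        exact absurd (h2.1 h3) (by simp)
      · rw [decide_eq_true_iff]
        exact h2.2 rfl

omit [Fintype V] in
theorem lab_slot (X : Finset V) (v : V) (u₁ u₂ : List Bool) :
    (fw u₁ ++ Sum.inl v :: fw u₂ : List (Slot V)).map (Sum.elim (fun w => decide (w ∈ X)) id) =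
      u₁ ++ decide (v ∈ X) :: u₂ := by
  unfold fw
  rw [List.map_append, List.map_cons, List.map_map, List.map_map]
  have h : (Sum.elim (fun w => decide (w ∈ X)) id) ∘ (Sum.inr : Bool → Slot V) = id := rfl
  rw [h, List.map_id, List.map_id]
  rfl

omit [Fintype V] in
theorem wt_ofFn (X : Finset V) {k : ℕ} (f : Fin k → V) :
    wt ((List.ofFn f).map fun w => decide (w ∈ X)) = xc X f := by
  unfold wt xc
  rw [List.map_ofFn, List.count, List.ofFn_eq_map, List.countP_map, Finset.card_def,
    Finset.filter_val, ← Multiset.countP_eq_card_filter, Fin.univ_def, Multiset.coe_countP]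
  refine List.countP_congr fun x _ => ?_
  simp

omit [Fintype V] [DecidableEq V] in
theorem exists_ofFn {k : ℕ} (e : List V) (h : e.length = k) : ∃ f : Fin k → V, List.ofFn f = e := by
  subst h
  exact ⟨e.get, List.ofFn_get e⟩

/-- functions with one given value and a value in a small set -/
theorem card_two (S : Finset V) {k : ℕ} (i₀ i : Fin k) (hi : i ≠ i₀) (v : V) :
    {f : Fin k → V | f i₀ = v ∧ f i ∈ S}.ncard ≤ S.card * Fintype.card V ^ (k - 2) := by
  have hsub : {f : Fin k → V | f i₀ = v ∧ f i ∈ S} ⊆
      ((Fintype.piFinset fun j => if j = i₀ then {v} else if j = i then S else Finset.univ :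
        Finset (Fin k → V)) : Set (Fin k → V)) := by
    rintro f ⟨h1, h2⟩
    rw [Finset.mem_coe, Fintype.mem_piFinset]
    intro j
    split_ifs with h3 h4
    · rw [h3, h1]
      exact Finset.mem_singleton_self v
    · rw [h4]
      exact h2
    · exact Finset.mem_univ _
  refine (Set.ncard_le_ncard hsub (Finset.finite_toSet _)).trans ?_
  rw [Set.ncard_coe_finset, Fintype.card_piFinset]
  rw [← Finset.mul_prod_erase Finset.univ _ (Finset.mem_univ i₀), if_pos rfl,
    Finset.card_singleton, one_mul]
  have hi' : i ∈ Finset.univ.erase i₀ := Finset.mem_erase.2 ⟨hi, Finset.mem_univ _⟩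
  rw [← Finset.mul_prod_erase _ _ hi', if_neg hi, if_pos rfl]
  have hc : ((Finset.univ.erase i₀).erase i).card = k - 2 := by
    rw [Finset.card_erase_of_mem hi', Finset.card_erase_of_mem (Finset.mem_univ _),
      Finset.card_univ, Fintype.card_fin]
    omega
  rw [Finset.prod_congr rfl (g := fun _ => Fintype.card V), Finset.prod_const, hc]
  intro j hj
  have hj1 := Finset.ne_of_mem_erase hj
  have hj2 := Finset.ne_of_mem_erase (Finset.mem_of_mem_erase hj)
  rw [if_neg hj2, if_neg hj1, Finset.card_univ]

theorem npo : NpoStmt := by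
  classical
  intro V _ _ H A X k p η γ ρ hk hp hη hγ hρ hNP hS
  obtain ⟨_, _, hB⟩ := hNP
  obtain ⟨B, hBdef⟩ : ∃ B : Set (Fin k → V), B = {f : Fin k → V | Function.Injective f ∧
    ¬ (Finset.univ.image f ∈ H ↔ xc A f % 2 = p % 2)} := ⟨_, rfl⟩
  rw [← hBdef] at hB
  have hBfin : B.Finite := Set.toFinite B
  obtain ⟨F, hF⟩ : ∃ F : Finset (Fin k → V), F = hBfin.toFinset := ⟨_, rfl⟩
  have hFcard : (F.card : ℝ) ≤ η * (Fintype.card V : ℝ) ^ k := by
    rw [hF, ← Set.ncard_eq_toFinset_card B hBfin]
    exact hB
  obtain ⟨b, hb⟩ : ∃ b : V → ℕ,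
    b = fun v => (F.filter fun f => v ∈ Finset.univ.image f).card := ⟨_, rfl⟩
  have hn0 : (0 : ℝ) ≤ (Fintype.card V : ℝ) := Nat.cast_nonneg _
  have hk0 : (0 : ℝ) ≤ (k : ℝ) := Nat.cast_nonneg _
  have hsum : ∑ v : V, b v ≤ k * F.card := by
    rw [hb]
    calc ∑ v : V, (F.filter fun f => v ∈ Finset.univ.image f).card
        = ∑ v : V, ∑ f ∈ F, (if v ∈ Finset.univ.image f then 1 else 0) := by
          refine Finset.sum_congr rfl fun v _ => ?_
          rw [Finset.card_filter]
      _ = ∑ f ∈ F, ∑ v : V, (if v ∈ Finset.univ.image f then 1 else 0) := Finset.sum_comm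
      _ = ∑ f ∈ F, (Finset.univ.image f).card := by
          refine Finset.sum_congr rfl fun f _ => ?_
          rw [Finset.sum_ite_mem, Finset.univ_inter, Finset.card_eq_sum_ones]
      _ ≤ ∑ _f ∈ F, k := by
          refine Finset.sum_le_sum fun f _ => ?_
          refine Finset.card_image_le.trans ?_
          rw [Finset.card_univ, Fintype.card_fin]
      _ = k * F.card := by
          rw [Finset.sum_const, smul_eq_mul, mul_comm]
  obtain ⟨D₀, hD₀⟩ : ∃ D₀ : Finset V, D₀ = Finset.univ.filter fun v =>
    γ * (Fintype.card V : ℝ) ^ (k - 1) < (b v : ℝ) := ⟨_, rfl⟩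
  have hD₀card : (D₀.card : ℝ) ≤ k * η / γ * (Fintype.card V : ℝ) := by
    rcases Nat.eq_zero_or_pos (Fintype.card V) with h0 | h0
    · have h1 : D₀.card = 0 := by
        have := Finset.card_le_univ D₀
        omega
      rw [h1, h0]
      simp
    · have h0' : (0 : ℝ) < (Fintype.card V : ℝ) := by exact_mod_cast h0
      have h1 : (D₀.card : ℝ) * (γ * (Fintype.card V : ℝ) ^ (k - 1)) ≤
          k * (η * (Fintype.card V : ℝ) ^ k) := by
        calc (D₀.card : ℝ) * (γ * (Fintype.card V : ℝ) ^ (k - 1))
            = ∑ _v ∈ D₀, γ * (Fintype.card V : ℝ) ^ (k - 1) := by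
              rw [Finset.sum_const, nsmul_eq_mul]
          _ ≤ ∑ v ∈ D₀, (b v : ℝ) := by
              refine Finset.sum_le_sum fun v hv => ?_
              rw [hD₀] at hv
              exact (Finset.mem_filter.1 hv).2.le
          _ ≤ ∑ v : V, (b v : ℝ) :=
              Finset.sum_le_sum_of_subset_of_nonneg (Finset.subset_univ _)
                fun v _ _ => Nat.cast_nonneg _
          _ ≤ (k : ℝ) * F.card := by exact_mod_cast hsum
          _ ≤ k * (η * (Fintype.card V : ℝ) ^ k) := by gcongr
      have hpw : (Fintype.card V : ℝ) ^ k =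
          (Fintype.card V : ℝ) ^ (k - 1) * (Fintype.card V : ℝ) := by
        rw [← pow_succ]
        congr 1
        omega
      rw [hpw] at h1
      have hpos : 0 < γ * (Fintype.card V : ℝ) ^ (k - 1) := by positivity
      have h2 : (D₀.card : ℝ) ≤ (k * (η * ((Fintype.card V : ℝ) ^ (k - 1) *
          (Fintype.card V : ℝ)))) / (γ * (Fintype.card V : ℝ) ^ (k - 1)) := by
        rw [le_div_iff₀ hpos]
        exact h1
      refine h2.trans_eq ?_
      field_simp
  refine ⟨D₀ ∪ symmDiff X A, ?_, ?_⟩
  · have h1 : ((D₀ ∪ symmDiff X A).card : ℝ) ≤ (D₀.card : ℝ) + ((symmDiff X A).card : ℝ) := by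
      exact_mod_cast Finset.card_union_le _ _
    have h2 : (k * η / γ + ρ) * (Fintype.card V : ℝ) =
      k * η / γ * (Fintype.card V : ℝ) + ρ * (Fintype.card V : ℝ) := by ring
    rw [h2]
    linarith
  · intro v hv u₁ u₂ hlen hpar
    have hv1 : v ∉ D₀ := fun h => hv (Finset.mem_union_left _ h)
    have hv2 : v ∉ symmDiff X A := fun h => hv (Finset.mem_union_right _ h)
    have hbv : (b v : ℝ) ≤ γ * (Fintype.card V : ℝ) ^ (k - 1) := by
      by_contra h
      refine hv1 ?_
      rw [hD₀, Finset.mem_filter]
      exact ⟨Finset.mem_univ _, not_le.1 h⟩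
    obtain ⟨i₀, hi₀⟩ : ∃ i₀ : Fin k, i₀.val = u₁.length := ⟨⟨u₁.length, by omega⟩, rfl⟩
    have hsub : BadC H X (fw u₁ ++ Sum.inl v :: fw u₂) ⊆ List.ofFn ''
        ((⋃ i ∈ (Finset.univ.erase i₀ : Finset (Fin k)),
          {f : Fin k → V | f i₀ = v ∧ f i ∈ symmDiff X A}) ∪
          ((F.filter fun f => v ∈ Finset.univ.image f : Finset (Fin k → V)) :
            Set (Fin k → V))) := by
      rintro e ⟨he1, he2, he3⟩
      have hel : e.length = k := by
        rw [← he1.length_eq, List.length_append, List.length_cons, fw_length, fw_length]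
        omega
      obtain ⟨f, rfl⟩ := exists_ofFn e hel
      refine ⟨f, ?_, rfl⟩
      have hfi₀ : f i₀ = v := by
        have h1 := (List.forall₂_iff_get.1 he1).2 u₁.length (by
          rw [List.length_append, List.length_cons, fw_length, fw_length]
          omega) (by
          rw [List.length_ofFn]
          omega)
        have h2 : (fw u₁ ++ Sum.inl v :: fw u₂ : List (Slot V)).get ⟨u₁.length, by
            rw [List.length_append, List.length_cons, fw_length, fw_length]
            omega⟩ = Sum.inl v := by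
          rw [List.get_eq_getElem]
          simp only
          rw [List.getElem_append_right (by rw [fw_length])]
          simp [fw_length]
        rw [h2, List.get_ofFn] at h1
        have h3 : v = f _ := h1
        rw [h3]
        congr 1
        exact Fin.ext hi₀
      by_cases hex : ∃ i : Fin k, i ≠ i₀ ∧ f i ∈ symmDiff X A
      · left
        obtain ⟨i, hi, hfi⟩ := hex
        exact Set.mem_biUnion (x := i) (Finset.mem_coe.2
          (Finset.mem_erase.2 ⟨hi, Finset.mem_univ _⟩)) ⟨hfi₀, hfi⟩
      · right
        have hall : ∀ i, f i ∈ X ↔ f i ∈ A := by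
          intro i
          have h1 : f i ∉ symmDiff X A := by
            by_cases hi : i = i₀
            · rw [hi, hfi₀]
              exact hv2
            · exact fun h => hex ⟨i, hi, h⟩
          rw [Finset.mem_symmDiff] at h1
          tauto
        have hxc : xc A f = xc X f := by
          unfold xc
          congr 1
          refine Finset.filter_congr fun i _ => ?_
          exact (hall i).symm
        have h2 : xc X f % 2 = p := by
          rw [← wt_ofFn, lab_fit X he1, lab_slot]
          exact hpar
        rw [Finset.mem_coe, Finset.mem_filter, hF, Set.Finite.mem_toFinset, hBdef]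
        refine ⟨⟨List.nodup_ofFn.1 he2, ?_⟩, ?_⟩
        · have h3 : Finset.univ.image f = (List.ofFn f).toFinset := by
            ext x
            simp
          rw [h3, hxc, h2, Nat.mod_eq_of_lt hp]
          intro h4
          exact he3 (h4.2 rfl)
        · rw [← hfi₀]
          exact Finset.mem_image_of_mem _ (Finset.mem_univ _)
    have hcard : (BadC H X (fw u₁ ++ Sum.inl v :: fw u₂)).ncard ≤
        (k - 1) * ((symmDiff X A).card * Fintype.card V ^ (k - 2)) + b v := by
      refine (Set.ncard_le_ncard hsub (Set.toFinite _)).trans ?_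
      refine (Set.ncard_image_le (Set.toFinite _)).trans ?_
      refine (Set.ncard_union_le _ _).trans ?_
      rw [Set.ncard_coe_finset, hb]
      refine Nat.add_le_add_right ?_ _
      refine (Finset.set_ncard_biUnion_le _ _).trans ?_
      have h1 : (k - 1) * ((symmDiff X A).card * Fintype.card V ^ (k - 2)) =
          ∑ _i ∈ (Finset.univ.erase i₀ : Finset (Fin k)),
            (symmDiff X A).card * Fintype.card V ^ (k - 2) := by
        rw [Finset.sum_const, Finset.card_erase_of_mem (Finset.mem_univ _), Finset.card_univ,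
          Fintype.card_fin, smul_eq_mul]
      rw [h1]
      refine Finset.sum_le_sum fun i hi => ?_
      exact card_two _ i₀ i (Finset.ne_of_mem_erase hi) v
    have hcard' : ((BadC H X (fw u₁ ++ Sum.inl v :: fw u₂)).ncard : ℝ) ≤
        (k : ℝ) * (((symmDiff X A).card : ℝ) * (Fintype.card V : ℝ) ^ (k - 2)) + b v := by
      have h1 : (BadC H X (fw u₁ ++ Sum.inl v :: fw u₂)).ncard ≤
        k * ((symmDiff X A).card * Fintype.card V ^ (k - 2)) + b v :=
        hcard.trans (Nat.add_le_add_right (Nat.mul_le_mul_right _ (Nat.sub_le _ _)) _)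
      exact_mod_cast h1
    have hpw : (Fintype.card V : ℝ) ^ (k - 1) =
        (Fintype.card V : ℝ) * (Fintype.card V : ℝ) ^ (k - 2) := by
      rw [← pow_succ']
      congr 1
      omega
    have h5 : (k : ℝ) * (((symmDiff X A).card : ℝ) * (Fintype.card V : ℝ) ^ (k - 2)) ≤
        k * ρ * (Fintype.card V : ℝ) ^ (k - 1) := by
      rw [hpw]
      have h6 : ((symmDiff X A).card : ℝ) * (Fintype.card V : ℝ) ^ (k - 2) ≤
          (ρ * (Fintype.card V : ℝ)) * (Fintype.card V : ℝ) ^ (k - 2) := by
        gcongr
      calc (k : ℝ) * (((symmDiff X A).card : ℝ) * (Fintype.card V : ℝ) ^ (k - 2))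
          ≤ k * ((ρ * (Fintype.card V : ℝ)) * (Fintype.card V : ℝ) ^ (k - 2)) := by gcongr
        _ = _ := by ring
    have h7 : (γ + k * ρ) * (Fintype.card V : ℝ) ^ (k - 1) =
      γ * (Fintype.card V : ℝ) ^ (k - 1) + k * ρ * (Fintype.card V : ℝ) ^ (k - 1) := by ring
    rw [h7]
    linarith

end Pool.Agent.KK.H70
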