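import Pool.Agent.KK.StmtsB

/-! MP_747bc0_co, block B, row NSP: the neighbourhood of a good point of a split plane. -/

namespace Pool.Agent.KK.B.H70

open Function
open scoped Classical

theorem nsp (plt : PltStmt) : NspStmt := by
  intro k V _ _ E D β a i l hβ hβ16 hS hD hil hst hpl hsp
  obtain ⟨A, hA⟩ : ∃ A : V → Prop, A = fun p => D i (update a l p) := ⟨_, rfl⟩
  obtain ⟨B, hB⟩ : ∃ B : V → Prop, B = fun q => D l (update a i q) := ⟨_, rfl⟩
  obtain ⟨N, hN⟩ : ∃ N : V → Prop, N = nb E a i := ⟨_, rfl⟩
  have h3 : |dens A - 1 / 2| ≤ β ∧ |dens B - 1 / 2| ≤ β ∧ pm (8 * β) A B := by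
    rcases plt k V E D β a i l hβ hβ16 hS hD hil hpl with h | h | h
    · exfalso
      have h1 := h.1
      have h2 := hsp.1
      linarith
    · exfalso
      have h1 := h.1
      rw [dens_not] at h1
      have h2 := hsp.2
      linarith
    · rw [hA, hB]
      exact h.2
  obtain ⟨hA2, hB2, hAB⟩ := h3
  have hNd : (1 / 2 : ℝ) ≤ dens N := by
    rw [hN]
    exact hD a i
  have hst' : dens (fun q => N q ∧ ¬ (D i a ↔ B q)) ≤ β := by
    rw [hN, hB]
    exact hst
  have hNB : pm (3 * β) N B := by
    have hB3 := abs_le.1 hB2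
    by_cases hDa : D i a
    · left
      have h1 : dens (fun q => N q ∧ ¬ B q) ≤ β := by
        refine (dens_mono fun q hq => ?_).trans hst'
        exact ⟨hq.1, fun h => hq.2 (h.1 hDa)⟩
      have h4 := dens_split N B
      have h5 := dens_split B N
      have h6 : dens (fun q => B q ∧ N q) = dens (fun q => N q ∧ B q) :=
        dens_congr fun q => and_comm
      have h7 : dens (fun q => ¬ (N q ↔ B q)) ≤
          dens (fun q => N q ∧ ¬ B q) + dens (fun q => B q ∧ ¬ N q) := by
        refine (dens_mono fun q hq => ?_).trans (dens_or_le _ _)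
        tauto
      unfold near
      linarith
    · right
      have h1 : dens (fun q => N q ∧ B q) ≤ β := by
        refine (dens_mono fun q hq => ?_).trans hst'
        exact ⟨hq.1, fun h => hDa (h.2 hq.2)⟩
      have h4 := dens_split N B
      have h5 := dens_split (fun q => ¬ B q) N
      have h8 := dens_not B
      have h6 : dens (fun q => ¬ B q ∧ N q) = dens (fun q => N q ∧ ¬ B q) :=
        dens_congr fun q => and_comm
      have h7 : dens (fun q => ¬ (N q ↔ ¬ B q)) ≤
          dens (fun q => N q ∧ B q) + dens (fun q => ¬ B q ∧ ¬ N q) := by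
        refine (dens_mono fun q hq => ?_).trans (dens_or_le _ _)
        tauto
      unfold near
      linarith
  have hfin : pm (11 * β) N A := pm_mono (by linarith) (pm_trans hNB (pm_symm hAB))
  rw [hN, hA] at hfin
  refine ⟨hfin, ?_⟩
  rw [hA] at hA2
  have := abs_of_pm hfin hA2
  have h9 : 11 * β + β = 12 * β := by ring
  rwa [h9] at this

end Pool.Agent.KK.B.H70
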