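import Pool.Agent.KK.StmtsB

/-! MP_747bc0_co, block B, row STR: the structure theorem. -/

namespace Pool.Agent.KK.B.H70

open Function
open scoped Classical

theorem wdet_mono' {k : ℕ} {V : Type} [Fintype V] {ν ν' : ℝ} (h : ν ≤ ν') {X : V → Prop}
    {D : Fin k → (Fin k → V) → Prop} (hW : WDet ν X D) : WDet ν' X D := by
  intro i W
  rcases hW i W with h1 | h1
  · exact Or.inl (h1.trans h)
  · exact Or.inr (h1.trans h)

theorem triv_mono {k : ℕ} {V : Type} [Fintype V] {ν ν' : ℝ} (h : ν ≤ ν')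
    {D : Fin k → (Fin k → V) → Prop} (hT : Triv ν D) : Triv ν' D := by
  rcases hT with h1 | h1
  · exact Or.inl fun i => (h1 i).trans h
  · exact Or.inr fun i => (h1 i).trans h

/-- the minimum of five numbers -/
theorem ex_min5' {c1 c2 c3 c4 c5 : ℝ} (h1 : 0 < c1) (h2 : 0 < c2) (h3 : 0 < c3) (h4 : 0 < c4)
    (h5 : 0 < c5) : ∃ x : ℝ, 0 < x ∧ x ≤ c1 ∧ x ≤ c2 ∧ x ≤ c3 ∧ x ≤ c4 ∧ x ≤ c5 := by
  refine ⟨min c1 (min c2 (min c3 (min c4 c5))), ?_, ?_, ?_, ?_, ?_, ?_⟩
  · exact lt_min h1 (lt_min h2 (lt_min h3 (lt_min h4 h5)))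
  · exact min_le_left _ _
  · exact (min_le_right _ _).trans (min_le_left _ _)
  · exact (min_le_right _ _).trans ((min_le_right _ _).trans (min_le_left _ _))
  · exact (min_le_right _ _).trans ((min_le_right _ _).trans ((min_le_right _ _).trans
      (min_le_left _ _)))
  · exact (min_le_right _ _).trans ((min_le_right _ _).trans ((min_le_right _ _).trans
      (min_le_right _ _)))

/-- the sequence of scales -/
theorem ex_seq (f : ℝ → ℝ) (hf : ∀ x, 0 < x → 0 < f x) (ν : ℝ) (hν : 0 < ν) :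
    ∃ u : ℕ → ℝ, u 0 = ν ∧ (∀ m, 0 < u m) ∧ ∀ m, u (m + 1) = f (u m) := by
  refine ⟨fun m => f^[m] ν, rfl, ?_, ?_⟩
  · intro m
    induction m with
    | zero => exact hν
    | succ m ih =>
      show 0 < f^[m + 1] ν
      rw [Function.iterate_succ_apply']
      exact hf _ ih
  · intro m
    exact Function.iterate_succ_apply' f m ν

/-- pigeonhole for the scales: `n` numbers miss one of `n + 1` disjoint intervals -/
theorem pigeon (u : ℕ → ℝ) (hu : ∀ m, u (m + 1) ≤ u m) (n : ℕ) (t : ℕ → ℝ) :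
    ∃ m ≤ n, ∀ j < n, ¬ (u (m + 1) < t j ∧ t j < u m) := by
  by_contra hcon
  push Not at hcon
  have h1 : ∀ m : Fin (n + 1), ∃ j : Fin n, u (m + 1) < t j ∧ t j < u m := by
    intro m
    obtain ⟨j, hj, h⟩ := hcon m (Nat.lt_succ_iff.1 m.2)
    exact ⟨⟨j, hj⟩, h⟩
  choose c hc using h1
  have hanti : ∀ a b : ℕ, a ≤ b → u b ≤ u a := by
    intro a b hab
    induction hab with
    | refl => exact le_rfl
    | step _ ih => exact (hu _).trans ih
  have hinj : Function.Injective c := by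
    intro a b hab
    by_contra hne
    have h2 := hc a
    have h3 := hc b
    rw [hab] at h2
    rcases lt_or_gt_of_ne (fun h : (a : ℕ) = b => hne (Fin.ext h)) with h4 | h4
    · have h5 := hanti (a + 1) b h4
      linarith [h2.1, h3.2]
    · have h5 := hanti (b + 1) a h4
      linarith [h3.1, h2.2]
  have h6 := Fintype.card_le_of_injective c hinj
  rw [Fintype.card_fin, Fintype.card_fin] at h6
  omega

/-- the density of the tuples of a given type -/
theorem dens_typ {k : ℕ} {V : Type} [Fintype V] [Nonempty V] (X : V → Prop)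
    (hX : |dens X - 1 / 2| ≤ 1 / 8) (j : ℕ) (hj : j ≤ k) :
    (1 / 4 : ℝ) ^ k ≤ dens (fun a : Fin k → V => typ X a = j) := by
  have hX' := abs_le.1 hX
  obtain ⟨J, -, hJc⟩ := Finset.exists_subset_card_eq (s := (Finset.univ : Finset (Fin k)))
    (n := j) (by rw [Finset.card_univ, Fintype.card_fin]; exact hj)
  have h1 : (1 / 4 : ℝ) ^ k ≤ dens (fun a : Fin k → V => ∀ m, (X (a m) ↔ m ∈ J)) := by
    rw [dens_pi (fun (m : Fin k) (v : V) => (X v ↔ m ∈ J))]
    calc (1 / 4 : ℝ) ^ k = ∏ _m : Fin k, (1 / 4 : ℝ) := by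
          rw [Finset.prod_const, Finset.card_univ, Fintype.card_fin]
      _ ≤ ∏ m : Fin k, dens (fun v => (X v ↔ m ∈ J)) := by
          refine Finset.prod_le_prod (fun _ _ => by norm_num) fun m _ => ?_
          by_cases hm : m ∈ J
          · have h2 : dens (fun v => (X v ↔ m ∈ J)) = dens X :=
              dens_congr fun v => ⟨fun h => h.2 hm, fun h => ⟨fun _ => hm, fun _ => h⟩⟩
            rw [h2]
            linarith
          · have h2 : dens (fun v => (X v ↔ m ∈ J)) = dens (fun v => ¬ X v) :=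
              dens_congr fun v => ⟨fun h hx => hm (h.1 hx), fun h => ⟨fun hx => absurd hx h,
                fun h' => absurd h' hm⟩⟩
            rw [h2, dens_not]
            linarith
  refine h1.trans (dens_mono fun a ha => ?_)
  unfold typ
  rw [← hJc]
  congr 1
  ext m
  rw [Finset.mem_filter]
  exact ⟨fun h => (ha m).1 h.2, fun h => ⟨Finset.mem_univ _, (ha m).2 h⟩⟩

theorem str (uni : UniStmt) (msx : MsxStmt) (mis : MisStmt) (nbr : NbrStmt) : StrStmt := by
  intro k hk b hb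
  have hkR : (3 : ℝ) ≤ k := by exact_mod_cast hk
  have hk0 : (0 : ℝ) < k := by linarith
  have hU : ∀ x : ℝ, ∃ ε : ℝ, 0 < ε ∧ (0 < x →
      ∀ (V : Type) [Fintype V] [Nonempty V] (E : (Fin k → V) → Prop) (X : V → Prop) (j : ℕ),
      Symm E → Deg E → 1 ≤ j → j ≤ k - 1 → |dens X - 1 / 2| ≤ ε → tden E X j ≤ ε →
      ∀ D : Fin k → (Fin k → V) → Prop, Indep D → Closed E ε D → WDet x X D) := by
    intro x
    by_cases hx : 0 < x
    · obtain ⟨ε, hε, h⟩ := uni k x (by omega) hx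
      exact ⟨ε, hε, fun _ => h⟩
    · exact ⟨1, one_pos, fun h => absurd h hx⟩
  choose εU hεU hUspec using hU
  obtain ⟨b', hb'⟩ : ∃ b' : ℝ → ℝ, b' = fun x => min (b x) (x / 2 ^ (k + 3)) := ⟨_, rfl⟩
  have hb'pos : ∀ x, 0 < x → 0 < b' x := by
    intro x hx
    rw [hb']
    exact lt_min (hb x hx) (by positivity)
  have hb'b : ∀ x, b' x ≤ b x := by
    intro x
    rw [hb']
    exact min_le_left _ _
  have hb'x : ∀ x, b' x ≤ x / 2 ^ (k + 3) := by
    intro x
    rw [hb']
    exact min_le_right _ _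
  refine ⟨fun x => if 0 < x then min (εU (b' x)) (x / 2 ^ (k + 3)) else 1, ?_, ?_⟩
  · intro x hx
    show 0 < (if 0 < x then min (εU (b' x)) (x / 2 ^ (k + 3)) else 1)
    rw [if_pos hx]
    exact lt_min (hεU _) (by positivity)
  intro g hg ν hν
  -- the step of the scales
  have hstep : ∀ x : ℝ, ∃ y : ℝ, (0 < x → 0 < y ∧ y ≤ x / 2 ∧ y ≤ g x ∧ y ≤ (g x / (3 * k)) ^ 2 ∧
      y ≤ εU (b' x) ∧ y ≤ (1 / (8 * k * 4 ^ k)) ^ 2) := by
    intro x
    by_cases hx : 0 < x
    · have hgx := hg x hx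
      obtain ⟨y, h0, h1, h2, h3, h4, h5⟩ := ex_min5' (c1 := x / 2) (c2 := g x)
        (c3 := (g x / (3 * k)) ^ 2) (c4 := εU (b' x)) (c5 := (1 / (8 * k * 4 ^ k)) ^ 2)
        (by positivity) hgx (by positivity) (hεU _) (by positivity)
      exact ⟨y, fun _ => ⟨h0, h1, h2, h3, h4, h5⟩⟩
    · exact ⟨0, fun h => absurd h hx⟩
  choose f hf using hstep
  obtain ⟨u, hu0, hupos, husucc⟩ := ex_seq f (fun x hx => (hf x hx).1) (min ν 1)
    (lt_min hν one_pos)
  have hu : ∀ m, u (m + 1) ≤ u m / 2 ∧ u (m + 1) ≤ g (u m) ∧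
      u (m + 1) ≤ (g (u m) / (3 * k)) ^ 2 ∧ u (m + 1) ≤ εU (b' (u m)) ∧
      u (m + 1) ≤ (1 / (8 * k * 4 ^ k)) ^ 2 := by
    intro m
    rw [husucc m]
    exact (hf (u m) (hupos m)).2
  have hanti1 : ∀ m, u (m + 1) ≤ u m := by
    intro m
    have h1 := (hu m).1
    have h2 := hupos m
    linarith
  have hanti : ∀ a b : ℕ, a ≤ b → u b ≤ u a := by
    intro a b hab
    induction hab with
    | refl => exact le_rfl
    | step _ ih => exact (hanti1 _).trans ih
  have huν : ∀ m, u m ≤ ν := by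
    intro m
    refine (hanti 0 m (Nat.zero_le m)).trans ?_
    rw [hu0]
    exact min_le_left _ _
  have hu1 : ∀ m, u m ≤ 1 := by
    intro m
    refine (hanti 0 m (Nat.zero_le m)).trans ?_
    rw [hu0]
    exact min_le_right _ _
  obtain ⟨εM, hεM, hM⟩ := msx k (u (k + 2)) hk (hupos _)
  refine ⟨min εM (u (k + 2)), lt_min hεM (hupos _), ?_⟩
  intro V _ _ E hS hD
  by_cases hI : ∀ D : Fin k → (Fin k → V) → Prop, Indep D → Closed E (min εM (u (k + 2))) D →
      Triv ν D
  · exact Or.inl hI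
  right
  push Not at hI
  obtain ⟨D0, hI0, hC0, hT0⟩ := hI
  obtain ⟨X, j0, hj01, hj0k, hX, htj0⟩ := hM V E D0 hS hD hI0 (le_trans hC0 (min_le_left _ _))
    (fun h => hT0 (triv_mono (huν _) h))
  obtain ⟨m, hmk, hm⟩ := pigeon u hanti1 (k + 1) (fun j => tden E X j)
  have hK : u (k + 2) ≤ u (m + 1) := hanti _ _ (by omega)
  obtain ⟨h2, hgm, hg2, hεm, h8⟩ := hu m
  have hpos := hupos (m + 1)
  have hsq : Real.sqrt (u (m + 1)) ≤ 1 / (8 * k * 4 ^ k) := by
    rw [← Real.sqrt_sq (show (0 : ℝ) ≤ 1 / (8 * k * 4 ^ k) by positivity)]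
    exact Real.sqrt_le_sqrt h8
  have hsqg : 3 * (k : ℝ) * Real.sqrt (u (m + 1)) ≤ g (u m) := by
    have hgx := hg _ (hupos m)
    have h3 : Real.sqrt (u (m + 1)) ≤ g (u m) / (3 * k) := by
      rw [← Real.sqrt_sq (show (0 : ℝ) ≤ g (u m) / (3 * k) by positivity)]
      exact Real.sqrt_le_sqrt hg2
    rw [le_div_iff₀ (by positivity)] at h3
    linarith
  have hXm : |dens X - 1 / 2| ≤ u (m + 1) := hX.trans hK
  have hX8 : |dens X - 1 / 2| ≤ 1 / 8 := by
    refine hXm.trans (h8.trans ?_)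
    have h4 : (1 : ℝ) ≤ 4 ^ k := one_le_pow₀ (by norm_num)
    have h5 : (8 : ℝ) ≤ 8 * k * 4 ^ k := by nlinarith
    have h6 : (1 / (8 * k * 4 ^ k) : ℝ) ≤ 1 / 8 := one_div_le_one_div_of_le (by norm_num) h5
    have h7 : (0 : ℝ) ≤ 1 / (8 * k * 4 ^ k) := by positivity
    nlinarith
  obtain ⟨F, hF⟩ : ∃ F : Finset ℕ, F = (Finset.range (k + 1)).filter
    (fun j => tden E X j ≤ u (m + 1)) := ⟨_, rfl⟩
  have memF : ∀ j, j ∈ F ↔ j < k + 1 ∧ tden E X j ≤ u (m + 1) := by
    intro j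
    rw [hF, Finset.mem_filter, Finset.mem_range]
  have hlarge : ∀ j, j ≤ k → j ∉ F → u m ≤ tden E X j := by
    intro j hjk hjF
    rw [memF] at hjF
    push Not at hjF
    have h3 := hjF (by omega)
    by_contra h4
    push Not at h4
    exact hm j (by omega) ⟨h3, h4⟩
  have hj0F : j0 ∈ F := (memF j0).2 ⟨by omega, htj0.trans hK⟩
  refine ⟨X, u m, F, ?_, huν m, hXm.trans hgm, ?_, ⟨j0, hj0F, hj01, hj0k⟩, ?_, ?_, hlarge, ?_, ?_,
    ?_⟩
  · exact (min_le_right _ _).trans (hanti _ _ (by omega))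
  · intro j hj
    have := ((memF j).1 hj).1
    omega
  · -- no two consecutive elements
    intro j hj hj'
    rw [memF] at hj hj'
    have h3 := (nbr k V E X j (u (m + 1)) (by omega) hD hpos hXm hj.2).1
    have h4 := dens_typ (k := k) X hX8 (j + 1) (by omega)
    have h5 : dens (fun a : Fin k → V => typ X a = j + 1) ≤
        tden E X (j + 1) + dens (fun e => typ X e = j + 1 ∧ ¬ E e) := by
      unfold tden
      refine (dens_mono fun e he => ?_).trans (dens_or_le _ _)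
      by_cases hE : E e
      · exact Or.inl ⟨hE, he⟩
      · exact Or.inr ⟨he, hE⟩
    have h6 := hj'.2
    have h7 : u (m + 1) ≤ Real.sqrt (u (m + 1)) := by
      have h9 := Real.mul_self_sqrt hpos.le
      have h10 : Real.sqrt (u (m + 1)) ≤ 1 := Real.sqrt_le_one.2 (hu1 _)
      have h11 := Real.sqrt_nonneg (u (m + 1))
      nlinarith
    have h12 : (1 / (8 * k * 4 ^ k) : ℝ) = (1 / 4 : ℝ) ^ k / (8 * k) := by
      rw [div_pow, one_pow]
      field_simp
    rw [h12, le_div_iff₀ (by positivity)] at hsq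
    have h13 : (0 : ℝ) < (1 / 4 : ℝ) ^ k := by positivity
    have h14 := Real.sqrt_nonneg (u (m + 1))
    nlinarith
  · intro j hj
    exact ((memF j).1 hj).2.trans hgm
  · intro j hj
    exact (nbr k V E X j (u (m + 1)) (by omega) hD hpos hXm ((memF j).1 hj).2).1.trans hsqg
  · intro j hj hj1
    have h3 := (memF j).1 hj
    exact ((nbr k V E X j (u (m + 1)) (by omega) hD hpos hXm h3.2).2 hj1 (by omega)).trans hsqg
  · intro D hID hCD
    have hCD' : Closed E (min (εU (b' (u m))) (u m / 2 ^ (k + 3))) D := by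
      have h3 : (if 0 < u m then min (εU (b' (u m))) (u m / 2 ^ (k + 3)) else 1) =
          min (εU (b' (u m))) (u m / 2 ^ (k + 3)) := if_pos (hupos m)
      have h4 : Closed E (if 0 < u m then min (εU (b' (u m))) (u m / 2 ^ (k + 3)) else 1) D := hCD
      rwa [h3] at h4
    have hW := hUspec (b' (u m)) (hb'pos _ (hupos m)) V E X j0 hS hD hj01 hj0k (hXm.trans hεm)
      ((htj0.trans hK).trans hεm) D hID (le_trans hCD' (min_le_left _ _))
    refine ⟨wdet_mono' (hb'b _) hW, ?_⟩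
    intro W hWF i l
    by_contra hne
    have h5 := mis k V E D X (u m / 2 ^ (k + 3)) (b' (u m)) i l W hS
      (le_trans hCD' (min_le_right _ _)) hW hne
    have hwk : wt W ≤ k := by
      unfold wt
      refine (Finset.card_le_univ _).trans ?_
      rw [Fintype.card_fin]
    have h6 := hlarge (wt W) hwk hWF
    have h7 := hb'x (u m)
    have h9 : (2 : ℝ) ^ (k + 3) = 8 * 2 ^ k := by rw [pow_add]; norm_num; ring
    have h10 := hupos m
    have h11 : (2 : ℝ) ^ k * (u m / 2 ^ (k + 3) + 2 * b' (u m)) ≤ 3 / 8 * u m := by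
      have h12 : (0 : ℝ) < 2 ^ k := by positivity
      calc (2 : ℝ) ^ k * (u m / 2 ^ (k + 3) + 2 * b' (u m))
          ≤ (2 : ℝ) ^ k * (u m / 2 ^ (k + 3) + 2 * (u m / 2 ^ (k + 3))) := by
            apply mul_le_mul_of_nonneg_left _ h12.le
            linarith
        _ = 3 / 8 * u m := by
            rw [h9]
            field_simp
            ring
    linarith

end Pool.Agent.KK.B.H70
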