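import Pool.Agent.KK.StmtsB

/-! MP_747bc0_co, block B, row TYP: the system of the states of type at least `j`. -/

namespace Pool.Agent.KK.B.H70

open Function
open scoped Classical

theorem td_indep {k : ℕ} {V : Type} (X : V → Prop) (j : ℕ) (i : Fin k) (a : Fin k → V) (v : V) :
    TD X j i (update a i v) ↔ TD X j i a := by
  unfold TD
  have h : Finset.univ.filter (fun l : Fin k => l ≠ i ∧ X (update a i v l)) =
      Finset.univ.filter (fun l : Fin k => l ≠ i ∧ X (a l)) := by
    ext l
    rw [Finset.mem_filter, Finset.mem_filter]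
    refine and_congr Iff.rfl ?_
    constructor
    · rintro ⟨h1, h2⟩
      rw [update_of_ne h1] at h2
      exact ⟨h1, h2⟩
    · rintro ⟨h1, h2⟩
      rw [update_of_ne h1]
      exact ⟨h1, h2⟩
  rw [h]

theorem td_le_typ {k : ℕ} {V : Type} (X : V → Prop) {j : ℕ} {i : Fin k} {e : Fin k → V}
    (h : TD X j i e) : j ≤ typ X e := by
  unfold TD at h
  refine h.trans ?_
  unfold typ
  apply Finset.card_le_card
  intro l hl
  rw [Finset.mem_filter] at hl ⊢
  exact ⟨hl.1, hl.2.2⟩

theorem typ_le_of_not_td {k : ℕ} {V : Type} (X : V → Prop) {j : ℕ} {i : Fin k} {e : Fin k → V}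
    (h : ¬ TD X j i e) : typ X e ≤ j := by
  unfold TD at h
  push Not at h
  have h1 : typ X e ≤ (insert i (Finset.univ.filter (fun l : Fin k => l ≠ i ∧ X (e l)))).card := by
    unfold typ
    apply Finset.card_le_card
    intro l hl
    rw [Finset.mem_filter] at hl
    rw [Finset.mem_insert, Finset.mem_filter]
    by_cases hli : l = i
    · exact Or.inl hli
    · exact Or.inr ⟨hl.1, hli, hl.2⟩
  have h2 := Finset.card_insert_le i (Finset.univ.filter (fun l : Fin k => l ≠ i ∧ X (e l)))
  omega

theorem not_mono_typ {k : ℕ} {V : Type} [Fintype V] (X : V → Prop) {j : ℕ} {e : Fin k → V}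
    (h : ¬ Mono (TD X j) e) : typ X e = j := by
  unfold Mono at h
  push Not at h
  obtain ⟨i, l, h1⟩ := h
  rcases h1 with ⟨h2, h3⟩ | ⟨h2, h3⟩
  · exact le_antisymm (typ_le_of_not_td X h3) (td_le_typ X h2)
  · exact le_antisymm (typ_le_of_not_td X h2) (td_le_typ X h3)

theorem typ' : TypStmt := by
  intro k V _ _ E X j i0 i1 h01 hj1 hjk hX
  have hX' := abs_le.1 hX
  refine ⟨fun i a v => td_indep X j i a v, ?_, ?_⟩
  · unfold Closed tden
    apply dens_mono
    intro e he
    exact ⟨he.1, not_mono_typ X he.2⟩
  · -- the set J
    have hT : j - 1 ≤ ((Finset.univ.erase i0).erase i1).card := by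
      rw [Finset.card_erase_of_mem (Finset.mem_erase.2 ⟨h01.symm, Finset.mem_univ _⟩),
        Finset.card_erase_of_mem (Finset.mem_univ _), Finset.card_univ, Fintype.card_fin]
      omega
    obtain ⟨J, hJT, hJc⟩ := Finset.exists_subset_card_eq hT
    have hJ0 : i0 ∉ J := fun h => by
      have := hJT h
      rw [Finset.mem_erase, Finset.mem_erase] at this
      exact this.2.1 rfl
    have hJ1 : i1 ∉ J := fun h => by
      have := hJT h
      rw [Finset.mem_erase] at this
      exact this.1 rfl
    obtain ⟨Q, hQ⟩ : ∃ Q : Fin k → V → Prop, Q = fun m v => m ≠ i0 → m ≠ i1 → (X v ↔ m ∈ J) :=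
      ⟨_, rfl⟩
    have hQd : ∀ m, (1 / 4 : ℝ) ≤ dens (Q m) := by
      intro m
      by_cases hm : m ∈ J
      · refine le_trans ?_ (dens_mono (P := X) (Q := Q m) fun v hv => ?_)
        · linarith
        · rw [hQ]
          intro _ _
          exact ⟨fun _ => hm, fun _ => hv⟩
      · refine le_trans ?_ (dens_mono (P := fun v => ¬ X v) (Q := Q m) fun v hv => ?_)
        · rw [dens_not]
          linarith
        · rw [hQ]
          intro _ _
          exact ⟨fun h => absurd h hv, fun h => absurd h hm⟩
    have h1 : (1 / 4 : ℝ) ^ k ≤ dens (fun a : Fin k → V => ∀ m, Q m (a m)) := by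
      rw [dens_pi]
      calc (1 / 4 : ℝ) ^ k = ∏ _m : Fin k, (1 / 4 : ℝ) := by
            rw [Finset.prod_const, Finset.card_univ, Fintype.card_fin]
        _ ≤ ∏ m, dens (Q m) := Finset.prod_le_prod (fun _ _ => by norm_num) fun m _ => hQd m
    refine h1.trans (dens_mono fun a ha => ?_)
    have key : ∀ p, (TD X j i0 (update a i1 p) ↔ X p) := by
      intro p
      unfold TD
      by_cases hp : X p
      · have h2 : Finset.univ.filter (fun l : Fin k => l ≠ i0 ∧ X (update a i1 p l)) =
            insert i1 J := by
          ext l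
          rw [Finset.mem_filter, Finset.mem_insert]
          by_cases hl1 : l = i1
          · subst hl1
            rw [update_self]
            exact ⟨fun _ => Or.inl rfl, fun _ => ⟨Finset.mem_univ _, h01.symm, hp⟩⟩
          · rw [update_of_ne hl1]
            constructor
            · rintro ⟨-, h3, h4⟩
              have h5 := ha l
              rw [hQ] at h5
              exact Or.inr ((h5 h3 hl1).1 h4)
            · rintro (h3 | h3)
              · exact absurd h3 hl1
              · have hl0 : l ≠ i0 := fun h => hJ0 (h ▸ h3)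
                have h5 := ha l
                rw [hQ] at h5
                exact ⟨Finset.mem_univ _, hl0, (h5 hl0 hl1).2 h3⟩
        rw [h2, Finset.card_insert_of_notMem hJ1, hJc]
        exact ⟨fun _ => hp, fun _ => by omega⟩
      · have h2 : Finset.univ.filter (fun l : Fin k => l ≠ i0 ∧ X (update a i1 p l)) = J := by
          ext l
          rw [Finset.mem_filter]
          by_cases hl1 : l = i1
          · subst hl1
            rw [update_self]
            exact ⟨fun h => absurd h.2.2 hp, fun h => absurd h hJ1⟩
          · rw [update_of_ne hl1]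
            constructor
            · rintro ⟨-, h3, h4⟩
              have h5 := ha l
              rw [hQ] at h5
              exact (h5 h3 hl1).1 h4
            · intro h3
              have hl0 : l ≠ i0 := fun h => hJ0 (h ▸ h3)
              have h5 := ha l
              rw [hQ] at h5
              exact ⟨Finset.mem_univ _, hl0, (h5 hl0 hl1).2 h3⟩
        rw [h2, hJc]
        exact ⟨fun h => by omega, fun h => absurd h hp⟩
    refine ⟨?_, key⟩
    unfold Sp
    have h3 : dens (fun p => TD X j i0 (update a i1 p)) = dens X := dens_congr key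
    rw [h3]
    constructor <;> linarith

end Pool.Agent.KK.B.H70
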