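import Pool.Agent.KK.StmtsB

/-! MP_747bc0_co, block B, row UNI: a missing type determines all closed systems. -/

namespace Pool.Agent.KK.B.H70

open Function
open scoped Classical

theorem wdet_mono {k : ℕ} {V : Type} [Fintype V] {ν ν' : ℝ} (h : ν ≤ ν') {X : V → Prop}
    {D : Fin k → (Fin k → V) → Prop} (hW : WDet ν X D) : WDet ν' X D := by
  intro i W
  rcases hW i W with h1 | h1
  · exact Or.inl (h1.trans h)
  · exact Or.inr (h1.trans h)

theorem ex_min5 {c1 c2 c3 c4 c5 : ℝ} (h1 : 0 < c1) (h2 : 0 < c2) (h3 : 0 < c3) (h4 : 0 < c4)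
    (h5 : 0 < c5) : ∃ x : ℝ, 0 < x ∧ x ≤ c1 ∧ x ≤ c2 ∧ x ≤ c3 ∧ x ≤ c4 ∧ x ≤ c5 := by
  refine ⟨min c1 (min c2 (min c3 (min c4 c5))), ?_, ?_, ?_, ?_, ?_, ?_⟩
  · exact lt_min h1 (lt_min h2 (lt_min h3 (lt_min h4 h5)))
  · exact min_le_left _ _
  · exact (min_le_right _ _).trans (min_le_left _ _)
  · exact (min_le_right _ _).trans ((min_le_right _ _).trans (min_le_left _ _))
  · exact (min_le_right _ _).trans ((min_le_right _ _).trans ((min_le_right _ _).trans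
      (min_le_left _ _)))
  · exact (min_le_right _ _).trans ((min_le_right _ _).trans ((min_le_right _ _).trans
      (min_le_right _ _)))

theorem uni (nsp : NspStmt) (g0d : G0dStmt) (levS : LevStmt) (glb : GlbStmt)
    (res : ResStmt) (typS : TypStmt) : UniStmt := by
  intro k ν hk hν
  have hkR : (2 : ℝ) ≤ k := by exact_mod_cast hk
  have hk0 : (0 : ℝ) < k := by linarith
  obtain ⟨ν0, hν0pos, hν0ν, hν08, -⟩ : ∃ x : ℝ, 0 < x ∧ x ≤ ν ∧ x ≤ 1 / 8 ∧ True :=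
    ⟨min ν (1 / 8), lt_min hν (by norm_num), min_le_left _ _, min_le_right _ _, trivial⟩
  obtain ⟨κ, hκ⟩ : ∃ x : ℝ, x = ν0 ^ 2 / (3 * k) := ⟨_, rfl⟩
  have hκpos : 0 < κ := by rw [hκ]; positivity
  have h3k : 3 * (k : ℝ) * κ = ν0 ^ 2 := by
    rw [hκ]
    field_simp
  have hκ1 : κ ≤ 1 := by
    rw [hκ, div_le_one (by positivity)]
    nlinarith
  obtain ⟨θ, hθ⟩ : ∃ x : ℝ, x = κ / 15 := ⟨_, rfl⟩
  have hθpos : 0 < θ := by rw [hθ]; positivity
  have hθ8 : θ ≤ 1 / 8 := by rw [hθ]; linarith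
  obtain ⟨δ, hδ⟩ : ∃ x : ℝ, x = θ / 4 := ⟨_, rfl⟩
  have hδpos : 0 < δ := by rw [hδ]; positivity
  obtain ⟨C, hC⟩ : ∃ x : ℝ, x = 4 * (k.factorial : ℝ) * (k : ℝ) ^ 2 * (1 + (k : ℝ) / δ) ^ k :=
    ⟨_, rfl⟩
  have hCpos : 0 < C := by
    rw [hC]
    have : (0 : ℝ) < (k.factorial : ℝ) := by exact_mod_cast Nat.factorial_pos k
    positivity
  obtain ⟨β, hβ, hβ16, hβθ, h88', hCκ', hC4'⟩ := ex_min5 (c1 := 1 / 16) (c2 := θ ^ 2 / 22)
    (c3 := θ / (88 * k)) (c4 := κ / C) (c5 := (1 / 4 : ℝ) ^ k / (2 * C)) (by norm_num)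
    (by positivity) (by positivity) (by positivity) (by positivity)
  have h88 : 88 * (k : ℝ) * β ≤ θ := by
    rw [le_div_iff₀ (by positivity)] at h88'
    linarith
  have hCκ : C * β ≤ κ := by
    rw [le_div_iff₀ hCpos] at hCκ'
    linarith
  have hC4 : C * β < (1 / 4 : ℝ) ^ k := by
    rw [le_div_iff₀ (by positivity)] at hC4'
    have h1 : (0 : ℝ) < (1 / 4 : ℝ) ^ k := by positivity
    linarith
  have hβ1 : β ≤ 1 := by linarith
  have hβ3 : β ^ 3 ≤ 1 / 8 := by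
    have h1 : β ^ 3 ≤ β := by
      calc β ^ 3 ≤ β ^ 1 := pow_le_pow_of_le_one hβ.le hβ1 (by norm_num)
        _ = β := pow_one β
    linarith
  have h11 : 11 * β ≤ θ := by
    have h1 : 11 * β ≤ 88 * (k : ℝ) * β := by
      apply mul_le_mul_of_nonneg_right _ hβ.le
      linarith
    linarith
  refine ⟨β ^ 3, by positivity, ?_⟩
  intro V _ _ E X j hS hD hj1 hjk hX hty D hI hcl
  have hbad : ∀ D' : Fin k → (Fin k → V) → Prop, Indep D' → Closed E (β ^ 3) D' →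
      dens (fun a => ¬ lev δ (G0 E D' β) k a) ≤ C * β := by
    intro D' hI' hC'
    have h1 := g0d k V E D' β hβ hβ1 hI' hC'
    have h2 := levS k V (G0 E D' β) δ k hδpos
    refine h2.trans ?_
    have h3 : (0 : ℝ) ≤ (1 + (k : ℝ) / δ) ^ k := by positivity
    calc (1 + (k : ℝ) / δ) ^ k * dens (fun a => ¬ G0 E D' β a)
        ≤ (1 + (k : ℝ) / δ) ^ k * (4 * (k.factorial : ℝ) * (k : ℝ) ^ 2 * β) :=
          mul_le_mul_of_nonneg_left h1 h3
      _ = C * β := by rw [hC]; ring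
  obtain ⟨i0, i1, h01⟩ : ∃ i0 i1 : Fin k, i0 ≠ i1 :=
    ⟨⟨0, by omega⟩, ⟨1, by omega⟩, fun h => by simpa using congrArg Fin.val h⟩
  obtain ⟨hTI, hTC, hTd⟩ := typS k V E X j i0 i1 h01 hj1 hjk (hX.trans hβ3)
  have hTC' : Closed E (β ^ 3) (TD (k := k) X j) := le_trans hTC hty
  obtain ⟨a0, ⟨hSp, hval⟩, hlev0⟩ : ∃ a0 : Fin k → V, (Sp (TD X j) a0 i0 i1 ∧
      ∀ p, (TD X j i0 (update a0 i1 p) ↔ X p)) ∧ lev δ (G0 E (TD X j) β) k a0 := by
    by_contra hcon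
    push Not at hcon
    have h1 : dens (fun a : Fin k → V => Sp (TD X j) a i0 i1 ∧
        ∀ p, (TD X j i0 (update a i1 p) ↔ X p)) ≤
        dens (fun a => ¬ lev δ (G0 E (TD X j) β) k a) := by
      apply dens_mono
      intro a ha
      exact hcon a ha
    have h2 := hbad _ hTI hTC'
    linarith
  have hG0 : G0 E (TD X j) β a0 := lev_le (Nat.zero_le k) hlev0
  have hself := G0_self hG0 h01
  have hpm := (nsp k V E (TD X j) β a0 i0 i1 hβ hβ16 hS hD h01 hself.1 hself.2.1 hSp).1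
  have hX0 : (fun p => TD X j i0 (update a0 i1 p)) = X := funext fun p => propext (hval p)
  rw [hX0] at hpm
  have hSS : SS (TD X j) i0 i1 a0 := ⟨1, hSp⟩
  have hdens : dens (fun a => ¬ LineDet κ X D a) ≤ κ := by
    refine (dens_mono fun a ha => ?_).trans ((hbad D hI hcl).trans hCκ)
    intro hlev
    apply ha
    have hL := glb k V E (TD X j) D β δ θ i0 i1 a0 a hβ hβ16 hθpos hθ8 hδpos.le (by rw [hδ])
      hβθ h88 hS hD hTI hI h01 hlev0 hSS hlev
    have h15 : 15 * θ = κ := by rw [hθ]; ring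
    intro i l hil
    rcases hL i l hil with h | h | h
    · exact Or.inl (h.trans (by linarith))
    · exact Or.inr (Or.inl (h.trans (by linarith)))
    · exact Or.inr (Or.inr (pm_mono (by linarith) (pm_trans h hpm)))
  exact wdet_mono hν0ν (res k V X D κ ν0 hκpos.le hν0pos.le h3k.le hI hdens)

end Pool.Agent.KK.B.H70
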