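import Pool.Agent.KK.StmtsV
import Pool.Agent.Helper3_KK.CYC

/-! MP_747bc0_co, squad KK, block BETA part 2: lists of slots, rows NEO TKR CMO (helper70; the lemmas
on lists are taken from `Helper3_KK/REA.lean`). -/

set_option autoImplicit false

namespace Pool.Agent.KK.H70

open Pool.Agent.KK.H3

section lists

variable {α : Type}

/-- a window of `A ++ B` is a window of `A` or of the last entries of `A` and `B` -/
theorem infix_split {A' W B s : List α} {k : ℕ} (hW : W.length + 1 = k)
    (hs : s.length = k) (h : s <:+: (A' ++ W) ++ B) : s <:+: A' ++ W ∨ s <:+: W ++ B := by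
  obtain ⟨i, hi, rfl⟩ := (infix_iff_drop _ _ _).1 ⟨h, hs⟩
  rw [List.length_append, List.length_append] at hi
  by_cases h1 : i + k ≤ (A' ++ W).length
  · left
    have h2 : (((A' ++ W) ++ B).drop i).take k = ((A' ++ W).drop i).take k := by
      rw [List.drop_append_of_le_length (by omega), List.take_append_of_le_length]
      rw [List.length_drop]
      omega
    rw [h2]
    exact (List.take_prefix _ _).isInfix.trans (List.drop_suffix _ _).isInfix
  · right
    rw [List.length_append] at h1
    have h2 : ((A' ++ W) ++ B).drop i = (W ++ B).drop (i - A'.length) := by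
      rw [List.append_assoc, List.drop_append, List.drop_eq_nil_of_le (by omega),
        List.nil_append]
    rw [h2]
    exact (List.take_prefix _ _).isInfix.trans (List.drop_suffix _ _).isInfix

end lists

variable {V : Type} [Fintype V] [DecidableEq V]

omit [Fintype V] [DecidableEq V] in
theorem fr_fw (u : List Bool) : fr (fw u : List (Slot V)) = u.length := by
  unfold fr fw
  rw [List.countP_map]
  exact List.countP_eq_length.2 fun _ _ => rfl

omit [Fintype V] [DecidableEq V] in
theorem fw_length (u : List Bool) : (fw u : List (Slot V)).length = u.length := by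
  unfold fw
  rw [List.length_map]

omit [Fintype V] [DecidableEq V] in
theorem fw_append (u v : List Bool) : (fw (u ++ v) : List (Slot V)) = fw u ++ fw v := by
  unfold fw
  rw [List.map_append]

omit [Fintype V] [DecidableEq V] in
theorem fw_inj {u v : List Bool} (h : (fw u : List (Slot V)) = fw v) : u = v :=
  List.map_injective_iff.2 Sum.inr_injective h

omit [Fintype V] in
theorem cX_append (X : Finset V) (s t : List (Slot V)) : cX X (s ++ t) = cX X s + cX X t := by
  unfold cX
  rw [List.countP_append]

omit [Fintype V] in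
theorem cX_fw (X : Finset V) (u : List Bool) : cX X (fw u) = wt u := by
  induction u with
  | nil => rfl
  | cons b u ih =>
    have h1 : (fw (b :: u) : List (Slot V)) = Sum.inr b :: fw u := rfl
    rw [h1]
    unfold cX wt at *
    rw [List.countP_cons, List.count_cons, ih]
    cases b <;> simp

omit [Fintype V] in
theorem cX_vx (X : Finset V) (l : List V) :
    cX X (vx l) = wt (l.map fun v => decide (v ∈ X)) := by
  induction l with
  | nil => rfl
  | cons b u ih =>
    have h1 : (vx (b :: u) : List (Slot V)) = Sum.inl b :: vx u := rfl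
    rw [h1]
    unfold cX wt at *
    rw [List.map_cons, List.countP_cons, List.count_cons, ih]
    by_cases hb : b ∈ X <;> simp [hb]

omit [Fintype V] [DecidableEq V] in
theorem fx_append (s t : List (Slot V)) : fx (s ++ t) = fx s ++ fx t := by
  unfold fx
  rw [List.filterMap_append]

omit [Fintype V] [DecidableEq V] in
theorem fx_fw (u : List Bool) : fx (fw u : List (Slot V)) = [] := by
  induction u with
  | nil => rfl
  | cons b u ih =>
    have h1 : (fw (b :: u) : List (Slot V)) = Sum.inr b :: fw u := rfl
    rw [h1]
    unfold fx at *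
    rw [List.filterMap_cons]
    exact ih

omit [Fintype V] [DecidableEq V] in
theorem fx_vx (l : List V) : fx (vx l : List (Slot V)) = l := by
  induction l with
  | nil => rfl
  | cons b u ih =>
    have h1 : (vx (b :: u) : List (Slot V)) = Sum.inl b :: vx u := rfl
    rw [h1]
    unfold fx at *
    rw [List.filterMap_cons]
    change b :: _ = _
    rw [ih]

omit [Fintype V] [DecidableEq V] in
/-- a window of length `k` between two free words of length `k - 1` with something fixed in the
middle is not free -/
theorem no_free {k : ℕ} {v uR s : List Bool} {l : List V} (hv : v.length + 1 = k)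
    (hR : uR.length + 1 = k) (hl : 1 ≤ l.length) (hs : s.length = k)
    (h : (fw s : List (Slot V)) <:+: fw v ++ (vx l ++ fw uR)) : False := by
  obtain ⟨i, hi, he⟩ := (infix_iff_drop _ _ _).1 ⟨h, (fw_length s).trans hs⟩
  have hvx : (vx l : List (Slot V)).length = l.length := by
    unfold vx
    rw [List.length_map]
  rw [List.length_append, List.length_append, fw_length, fw_length, hvx] at hi
  obtain ⟨j, hj⟩ : ∃ j, j = max i v.length := ⟨_, rfl⟩
  have hj1 : v.length ≤ j := by omega
  have hj2 : j < v.length + l.length := by omega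
  have hj3 : i ≤ j := by omega
  have hj4 : j - i < k := by omega
  have e1 : (fw s : List (Slot V))[j - i]? = (fw v ++ (vx l ++ fw uR))[j]? := by
    rw [he, List.getElem?_take_of_lt hj4, List.getElem?_drop]
    congr 1
    omega
  have e2 : (fw v ++ (vx l ++ fw uR) : List (Slot V))[j]? = some (Sum.inl l[j - v.length]) := by
    rw [List.getElem?_append_right (by rw [fw_length]; exact hj1), fw_length,
      List.getElem?_append_left (by rw [hvx]; omega)]
    unfold vx
    rw [List.getElem?_map, List.getElem?_eq_getElem (by omega)]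
    rfl
  have e3 : (fw s : List (Slot V))[j - i]? = some (Sum.inr s[j - i]) := by
    unfold fw
    rw [List.getElem?_map, List.getElem?_eq_getElem (by omega)]
    rfl
  rw [e3, e2] at e1
  exact absurd (Option.some.inj e1) (by simp)

/-! ### NEO -/

omit [DecidableEq V] in
theorem ncard_len (m : ℕ) : {l : List V | l.length = m}.ncard = Fintype.card V ^ m := by
  rw [← Nat.card_coe_set_eq]
  have h : Nat.card (List.Vector V m) = Fintype.card V ^ m := by
    rw [Nat.card_eq_fintype_card, card_vector]
  exact h

/-- completions of a window with a given first vertex -/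
theorem badC_inl (H : Finset (Finset V)) (X : Finset V) (v : V) (s : List (Slot V)) :
    (BadC H X (Sum.inl v :: s)).ncard ≤ Fintype.card V ^ s.length := by
  have hsub : BadC H X (Sum.inl v :: s) ⊆ (fun e => v :: e) '' {l : List V | l.length = s.length} := by
    rintro e ⟨he1, _⟩
    cases he1 with
    | cons h1 h2 =>
      rename_i w e' _
      have h3 : v = w := h1
      exact ⟨e', h2.length_eq.symm, by rw [h3]⟩
  have hfin : {l : List V | l.length = s.length}.Finite := List.finite_length_eq V s.length
  calc (BadC H X (Sum.inl v :: s)).ncard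
      ≤ ((fun e => v :: e) '' {l : List V | l.length = s.length}).ncard :=
        Set.ncard_le_ncard hsub (hfin.image _)
    _ ≤ {l : List V | l.length = s.length}.ncard := Set.ncard_image_le hfin
    _ = _ := ncard_len _

theorem neo : NeoStmt := by
  intro V _ _ H X D k p γ ρ ε hk hγ hN hD hε u hu hp
  unfold OKs
  rw [fr_fw, hu]
  obtain ⟨b, u', rfl⟩ : ∃ b u', u = b :: u' := by
    cases u with
    | nil =>
      simp only [List.length_nil] at hu
      omega
    | cons b u' => exact ⟨b, u', rfl⟩
  have hu' : u'.length = k - 1 := by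
    rw [List.length_cons] at hu
    omega
  have hsub : BadC H X (fw (b :: u')) ⊆
      ⋃ v ∈ (Finset.univ.filter fun v : V => decide (v ∈ X) = b),
        BadC H X (Sum.inl v :: fw u') := by
    rintro e ⟨he1, he2, he3⟩
    change List.Forall₂ (Fit X) (Sum.inr b :: fw u') e at he1
    cases he1 with
    | cons h1 h2 =>
      rename_i w e'
      refine Set.mem_biUnion (x := w) ?_ ⟨List.Forall₂.cons rfl h2, he2, he3⟩
      rw [Finset.mem_coe, Finset.mem_filter]
      refine ⟨Finset.mem_univ _, ?_⟩
      have h3 : w ∈ X ↔ b = true := h1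
      by_cases hw : w ∈ X
      · rw [h3.1 hw]
        simpa using hw
      · have : b = false := by
          cases b
          · rfl
          · exact absurd (h3.2 rfl) hw
        rw [this]
        simpa using hw
  have hcard : (BadC H X (fw (b :: u'))).ncard ≤
      ∑ v ∈ (Finset.univ.filter fun v : V => decide (v ∈ X) = b),
        (BadC H X (Sum.inl v :: fw u')).ncard := by
    refine (Set.ncard_le_ncard hsub ?_).trans ?_
    · exact Set.Finite.biUnion (Finset.finite_toSet _) fun v _ => badC_finite H X _
    · exact Finset.set_ncard_biUnion_le _ _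
  have hn0 : (0 : ℝ) ≤ (Fintype.card V : ℝ) := Nat.cast_nonneg _
  have hpw : (0 : ℝ) ≤ (Fintype.card V : ℝ) ^ (k - 1) := pow_nonneg hn0 _
  calc ((BadC H X (fw (b :: u'))).ncard : ℝ)
      ≤ ∑ v ∈ (Finset.univ.filter fun v : V => decide (v ∈ X) = b),
        ((BadC H X (Sum.inl v :: fw u')).ncard : ℝ) := by exact_mod_cast hcard
    _ ≤ ∑ v ∈ (Finset.univ.filter fun v : V => decide (v ∈ X) = b),
        (γ * (Fintype.card V : ℝ) ^ (k - 1) +
          if v ∈ D then (Fintype.card V : ℝ) ^ (k - 1) else 0) := by
        refine Finset.sum_le_sum fun v hv => ?_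
        have hv' := (Finset.mem_filter.1 hv).2
        by_cases hvD : v ∈ D
        · rw [if_pos hvD]
          have h5 := badC_inl H X v (fw u')
          rw [fw_length, hu'] at h5
          have h6 : ((BadC H X (Sum.inl v :: fw u')).ncard : ℝ) ≤
              (Fintype.card V : ℝ) ^ (k - 1) := by exact_mod_cast h5
          have h7 := mul_nonneg hγ hpw
          linarith
        · rw [if_neg hvD, add_zero]
          exact hN v hvD [] u' (by
            rw [List.length_nil, hu']
            omega) (by
            rw [hv']
            exact hp)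
    _ ≤ ∑ v : V, (γ * (Fintype.card V : ℝ) ^ (k - 1) +
          if v ∈ D then (Fintype.card V : ℝ) ^ (k - 1) else 0) := by
        refine Finset.sum_le_sum_of_subset_of_nonneg (Finset.filter_subset _ _) ?_
        intro v _ _
        have h7 := mul_nonneg hγ hpw
        split_ifs
        · linarith
        · linarith
    _ = (Fintype.card V : ℝ) * (γ * (Fintype.card V : ℝ) ^ (k - 1)) +
        (D.card : ℝ) * (Fintype.card V : ℝ) ^ (k - 1) := by
        rw [Finset.sum_add_distrib, Finset.sum_const, nsmul_eq_mul, Finset.card_univ,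
          Finset.sum_ite_mem, Finset.univ_inter, Finset.sum_const, nsmul_eq_mul]
    _ ≤ (Fintype.card V : ℝ) * (γ * (Fintype.card V : ℝ) ^ (k - 1)) +
        (ρ * (Fintype.card V : ℝ)) * (Fintype.card V : ℝ) ^ (k - 1) := by
        gcongr
    _ = (γ + ρ) * (Fintype.card V : ℝ) ^ k := by
        have : (Fintype.card V : ℝ) ^ k =
            (Fintype.card V : ℝ) ^ (k - 1) * (Fintype.card V : ℝ) := by
          rw [← pow_succ]
          congr 1
          omega
        rw [this]
        ring
    _ ≤ ε * (Fintype.card V : ℝ) ^ k := by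
        gcongr

/-! ### TKR -/

theorem tkr : TkrStmt := by
  intro V _ _ H X k p ε K z uL c uR hk huL huR hc hS Z hZ hZK
  have hz : z ∉ Z := fun h => (Finset.disjoint_left.1 hZ h) (Finset.mem_singleton_self z)
  obtain ⟨l, hl1, hzl, hl2, hl3, hl4⟩ := hS Z hZK hz
  have hlc : l.length = c.length := by
    rw [← hl3, List.length_map]
  have hvx : (vx l : List (Slot V)).length = l.length := by
    unfold vx
    rw [List.length_map]
  have hfx : fx (vx l ++ fw uR : List (Slot V)) = l := by
    rw [fx_append, fx_fw, fx_vx, List.append_nil]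
  refine ⟨vx l ++ fw uR, ?_, ?_, ?_, ?_, ?_, huL, huR, ?_, ?_, ?_, ?_⟩
  · rw [List.length_append, hvx, fw_length, hlc, huR]
  · rw [cX_append, cX_fw, cX_vx, hl3]
  · rw [hfx, hlc]
  · rw [hfx]
    exact hl2
  · rw [hfx]
    intro x hx
    rw [Finset.mem_singleton] at hx
    rw [hx]
    exact hzl
  · rw [hfx]
    exact hl1
  · exact (List.suffix_append _ _).trans (List.suffix_append _ _)
  · rw [← List.append_assoc]
    exact hl4
  · intro s hs hsk
    exact (no_free (k := k) (by omega) (by omega) (by omega) hsk hs).elim

/-! ### CMO -/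

omit [Fintype V] [DecidableEq V] in
/-- windows of a composition -/
theorem split2 {k : ℕ} (hk : 1 ≤ k) {u v : List Bool} (hv : v.length = k - 1)
    {L L' s : List (Slot V)} (hsuf : fw v <:+ fw u ++ L) (hs : s.length = k)
    (h : s <:+: fw u ++ (L ++ L')) : s <:+: fw u ++ L ∨ s <:+: fw v ++ L' := by
  obtain ⟨A, hA⟩ := hsuf
  rw [← List.append_assoc, ← hA] at h
  rcases infix_split (k := k) (by rw [fw_length, hv]; exact Nat.sub_add_cancel hk) hs h with h | h
  · left
    rw [hA] at h
    exact h
  · right
    exact h

theorem lst_comp (H : Finset (Finset V)) (X : Finset V) (k p : ℕ)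
    (ε : ℝ) (u v w : List Bool) (L L' : List (Slot V)) (hk : 1 ≤ k)
    (h1 : Lst H X k p ε u v L) (h2 : Lst H X k p ε v w L') (h3 : ∀ x ∈ fx L, x ∉ fx L') :
    Lst H X k p ε u w (L ++ L') := by
  obtain ⟨hu, hv, hnd, hsuf, hok, hpar⟩ := h1
  obtain ⟨_, hw, hnd', hsuf', hok', hpar'⟩ := h2
  refine ⟨hu, hw, ?_, ?_, ?_, ?_⟩
  · rw [fx_append]
    refine List.nodup_append.2 ⟨hnd, hnd', ?_⟩
    intro x hx y hy hxy
    subst hxy
    exact h3 x hx hy
  · obtain ⟨A, hA⟩ := hsuf
    refine hsuf'.trans ⟨A, ?_⟩
    rw [← List.append_assoc, ← List.append_assoc, hA]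
  · intro s hs hsk
    rcases split2 hk hv hsuf hsk hs with h | h
    · exact hok s h hsk
    · exact hok' s h hsk
  · intro s hs hsk
    rcases split2 hk hv hsuf ((fw_length s).trans hsk) hs with h | h
    · exact hpar s h hsk
    · exact hpar' s h hsk

theorem cmo : CmoStmt := by
  refine ⟨?_, ?_, ?_⟩
  · intro V _ _ H X k p ε u v w L L' hk h1 h2 h3
    exact lst_comp H X k p ε u v w L L' hk h1 h2 h3
  · intro V _ _ H X D D' k p ε K K' q q' u v w N N' a a' hk hR hR' hDD hK Z hZ hZK
    obtain ⟨hZD, hZD'⟩ := Finset.disjoint_union_right.1 hZ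
    obtain ⟨L, hL1, hL2, hL3, hL4, hL5, hL6⟩ := hR (Z ∪ D')
      (Finset.disjoint_union_left.2 ⟨hZD, hDD.symm⟩) (by
        have h1 : ((Z ∪ D').card : ℝ) ≤ (Z.card : ℝ) + (D'.card : ℝ) := by
          exact_mod_cast Finset.card_union_le Z D'
        have h2 : (0 : ℝ) ≤ (q : ℝ) := Nat.cast_nonneg _
        linarith)
    obtain ⟨L', hM1, hM2, hM3, hM4, hM5, hM6⟩ := hR' (Z ∪ (fx L).toFinset)
      (Finset.disjoint_union_left.2 ⟨hZD', by
        rw [Finset.disjoint_left]
        intro x hx hx'
        exact hL4 x (List.mem_toFinset.1 hx) (Finset.mem_union_right _ hx')⟩) (by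
        have h1 : ((Z ∪ (fx L).toFinset).card : ℝ) ≤ (Z.card : ℝ) + (q : ℝ) := by
          have h2 : (Z ∪ (fx L).toFinset).card ≤ Z.card + q :=
            (Finset.card_union_le _ _).trans (Nat.add_le_add_left
              ((List.toFinset_card_le _).trans hL3) _)
          exact_mod_cast h2
        have h2 : (0 : ℝ) ≤ (D'.card : ℝ) := Nat.cast_nonneg _
        linarith)
    refine ⟨L ++ L', ?_, ?_, ?_, ?_, ?_, ?_⟩
    · rw [List.length_append, hL1, hM1]
    · rw [cX_append, hL2, hM2]
    · rw [fx_append, List.length_append]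
      exact Nat.add_le_add hL3 hM3
    · intro x hx
      rw [fx_append, List.mem_append] at hx
      rcases hx with hx | hx
      · exact fun h => hL4 x hx (Finset.mem_union_left _ h)
      · exact fun h => hM4 x hx (Finset.mem_union_left _ h)
    · intro x hx
      rw [fx_append, List.mem_append]
      rcases Finset.mem_union.1 hx with hx | hx
      · exact Or.inl (hL5 x hx)
      · exact Or.inr (hM5 x hx)
    · refine lst_comp H X k p ε u v w L L' hk hL6 hM6 ?_
      intro x hx hx'
      exact hM4 x hx' (Finset.mem_union_right _ (List.mem_toFinset.2 hx))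
  · intro V _ _ H X D k p ε ε' K K' q q' u v N a hR hε hK hq Z hZ hZK
    obtain ⟨L, hL1, hL2, hL3, hL4, hL5, hu, hv, hnd, hsuf, hok, hpar⟩ := hR Z hZ (hZK.trans hK)
    refine ⟨L, hL1, hL2, hL3.trans hq, hL4, hL5, hu, hv, hnd, hsuf, ?_, hpar⟩
    intro s hs hsk
    have h1 := hok s hs hsk
    unfold OKs at *
    refine h1.trans ?_
    gcongr

end Pool.Agent.KK.H70
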