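import Pool.Agent.KK.StmtsB

/-! MP_747bc0_co, block B, row WGR: the word graph. -/

namespace Pool.Agent.KK.B.H70

open Function
open scoped Classical

/-- number of differences -/
noncomputable def dif {k : ℕ} (W W' : Fin k → Bool) : ℕ :=
  (Finset.univ.filter (fun l : Fin k => W l ≠ W' l)).card

theorem wt_true {k : ℕ} {W : Fin k → Bool} {q : Fin k} (h : W q = false) :
    wt (update W q true) = wt W + 1 := by
  unfold wt
  have h1 : Finset.univ.filter (fun l : Fin k => (update W q true) l = true) =
      insert q (Finset.univ.filter (fun l : Fin k => W l = true)) := by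
    ext l
    rw [Finset.mem_insert, Finset.mem_filter, Finset.mem_filter]
    by_cases hl : l = q
    · subst hl
      simp
    · rw [update_of_ne hl]
      simp [hl]
  rw [h1, Finset.card_insert_of_notMem]
  rw [Finset.mem_filter, h]
  simp

theorem wt_false {k : ℕ} {W : Fin k → Bool} {p : Fin k} (h : W p = true) :
    wt (update W p false) + 1 = wt W := by
  have h1 := wt_true (W := update W p false) (q := p) (by simp)
  rw [update_idem] at h1
  have h2 : update W p true = W := by
    rw [← h, update_eq_self]
  rw [h2] at h1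
  exact h1.symm

theorem dif_lt {k : ℕ} {W W' : Fin k → Bool} {q : Fin k} (h : W q ≠ W' q) :
    dif (update W q (W' q)) W' < dif W W' := by
  unfold dif
  apply Finset.card_lt_card
  rw [Finset.ssubset_iff_of_subset]
  · refine ⟨q, Finset.mem_filter.2 ⟨Finset.mem_univ _, h⟩, ?_⟩
    rw [Finset.mem_filter, update_self]
    simp
  · intro l hl
    rw [Finset.mem_filter] at hl ⊢
    refine ⟨Finset.mem_univ _, ?_⟩
    by_cases hlq : l = q
    · subst hlq
      exact h
    · have := hl.2
      rwa [update_of_ne hlq] at this

theorem exists_gain {k : ℕ} {W W' : Fin k → Bool} (h : wt W ≤ wt W') (hne : W ≠ W') :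
    ∃ q, W q = false ∧ W' q = true := by
  by_contra hcon
  push Not at hcon
  apply hne
  have h1 : Finset.univ.filter (fun l : Fin k => W' l = true) ⊆
      Finset.univ.filter (fun l : Fin k => W l = true) := by
    intro l hl
    rw [Finset.mem_filter] at hl ⊢
    refine ⟨Finset.mem_univ _, ?_⟩
    by_contra h2
    have h3 : W l = false := by
      cases hW : W l
      · rfl
      · exact absurd hW h2
    exact hcon l h3 hl.2
  have h2 := Finset.eq_of_subset_of_card_le h1 h
  funext l
  have h3 : W' l = true ↔ W l = true := by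
    have h4 : l ∈ Finset.univ.filter (fun l : Fin k => W' l = true) ↔
        l ∈ Finset.univ.filter (fun l : Fin k => W l = true) := by rw [h2]
    rw [Finset.mem_filter, Finset.mem_filter] at h4
    exact ⟨fun h => (h4.1 ⟨Finset.mem_univ _, h⟩).2, fun h => (h4.2 ⟨Finset.mem_univ _, h⟩).2⟩
  cases hW : W l <;> cases hW' : W' l
  · rfl
  · exact absurd (h3.1 hW') (by rw [hW]; simp)
  · exact absurd (h3.2 hW) (by rw [hW']; simp)
  · rfl

theorem wgr_first {k : ℕ} (φ : Fin k → (Fin k → Bool) → Prop) (F : ℕ → Prop)
    (hφ : ∀ i W b, φ i (update W i b) ↔ φ i W) (hF : ∀ W, ¬ F (wt W) → ∀ i l, (φ i W ↔ φ l W))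
    (a b : ℕ) (hab : a < b) (hp : ∀ t, a ≤ t → t ≤ b → ¬ F t) :
    ∀ n : ℕ, ∀ W W' : Fin k → Bool, dif W W' ≤ n → a ≤ wt W → wt W ≤ b → a ≤ wt W' → wt W' ≤ b →
      ∀ i l, (φ i W ↔ φ l W') := by
  intro n
  induction n with
  | zero =>
    intro W W' hd h1 h2 h3 h4 i l
    have hWW : W = W' := by
      funext x
      by_contra hx
      have h5 : 0 < dif W W' := by
        unfold dif
        exact Finset.card_pos.2 ⟨x, Finset.mem_filter.2 ⟨Finset.mem_univ _, hx⟩⟩
      omega
    subst hWW
    exact hF W (hp _ h1 h2) i l
  | succ n ih =>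
    intro W W' hd h1 h2 h3 h4 i l
    by_cases hWW : W = W'
    · subst hWW
      exact hF W (hp _ h1 h2) i l
    · have step : ∀ q : Fin k, ∀ c : Bool, W q ≠ W' q → W' q = c → a ≤ wt (update W q c) →
          wt (update W q c) ≤ b → (φ i W ↔ φ l W') := by
        intro q c hq hc h5 h6
        have h7 : (φ i W ↔ φ q W) := hF W (hp _ h1 h2) i q
        have h8 : (φ q (update W q c) ↔ φ q W) := hφ q W c
        have h9 := dif_lt hq
        rw [hc] at h9
        have h10 := ih (update W q c) W' (by omega) h5 h6 h3 h4 q l
        exact h7.trans (h8.symm.trans h10)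
      by_cases hc : wt W ≤ wt W' ∧ wt W < b
      · obtain ⟨q, hq1, hq2⟩ := exists_gain hc.1 hWW
        have h5 := wt_true hq1
        exact step q true (by rw [hq1, hq2]; simp) hq2 (by omega) (by omega)
      · have hc1 : wt W' ≤ wt W := by
          by_contra h5
          push Not at h5
          exact hc ⟨h5.le, by omega⟩
        have hc2 : a < wt W := by
          by_contra h5
          push Not at h5
          exact hc ⟨by omega, by omega⟩
        obtain ⟨p, hp1, hp2⟩ := exists_gain hc1 (Ne.symm hWW)
        have h5 := wt_false hp2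
        exact step p false (by rw [hp1, hp2]; simp) hp1 (by omega) (by omega)

theorem wgr : WgrStmt := by
  intro k φ F hφ hF
  have h1 : ∀ a b : ℕ, a < b → (∀ t, a ≤ t → t ≤ b → ¬ F t) → ∀ W W' : Fin k → Bool, a ≤ wt W →
      wt W ≤ b → a ≤ wt W' → wt W' ≤ b → ∀ i l, (φ i W ↔ φ l W') := by
    intro a b hab hp W W' h2 h3 h4 h5
    exact wgr_first φ F hφ hF a b hab hp (dif W W') W W' le_rfl h2 h3 h4 h5
  refine ⟨h1, ?_⟩
  intro hk hp W W' i l
  have hwk : ∀ W : Fin k → Bool, wt W ≤ k := by
    intro W
    unfold wt
    refine (Finset.card_le_univ _).trans ?_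
    rw [Fintype.card_fin]
  have key : ∀ (W : Fin k → Bool) (i : Fin k), ∃ W1 : Fin k → Bool, 1 ≤ wt W1 ∧ wt W1 ≤ k - 1 ∧
      (φ i W ↔ φ i W1) := by
    intro W i
    have hwW := hwk W
    by_cases h0 : wt W = 0
    · refine ⟨update W i true, ?_, ?_, (hφ i W true).symm⟩
      · have h2 : W i = false := by
          cases hWi : W i
          · rfl
          · exfalso
            have h3 : 0 < wt W := by
              unfold wt
              exact Finset.card_pos.2 ⟨i, Finset.mem_filter.2 ⟨Finset.mem_univ _, hWi⟩⟩
            omega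
        rw [wt_true h2]
        omega
      · have h2 : W i = false := by
          cases hWi : W i
          · rfl
          · exfalso
            have h3 : 0 < wt W := by
              unfold wt
              exact Finset.card_pos.2 ⟨i, Finset.mem_filter.2 ⟨Finset.mem_univ _, hWi⟩⟩
            omega
        rw [wt_true h2]
        omega
    · by_cases hk1 : wt W = k
      · have h2 : W i = true := by
          cases hWi : W i
          · exfalso
            have h3 := wt_true hWi
            have h4 := hwk (update W i true)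
            omega
          · rfl
        have h3 := wt_false h2
        exact ⟨update W i false, by omega, by omega, (hφ i W false).symm⟩
      · exact ⟨W, by omega, by omega, Iff.rfl⟩
  obtain ⟨W1, ha, hb, hc⟩ := key W i
  obtain ⟨W2, hd, he, hf⟩ := key W' l
  have h2 := h1 1 (k - 1) (by omega) hp W1 W2 ha hb hd he i l
  exact hc.trans (h2.trans hf.symm)

end Pool.Agent.KK.B.H70
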